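import Pool.Agent.QE.Stm
import Pool.Agent.QD.A1
import Pool.Agent.QD.A2

/-!
# Project QE (MP_bbdce3), TA1 and TA2: stability
-/

set_option autoImplicit false

namespace Pool.Agent.QE

open Pool.Agent.QIS Pool.Agent.QD

theorem ta1 : TA1 := by
  intro G _ S hS hSg k _ P hD Y hinv hcof hconn r
  obtain ⟨D, hD, ι, hι⟩ := hD
  obtain ⟨r0, hr0⟩ := hconn
  obtain ⟨F, hF, hFY⟩ := hcof
  obtain ⟨n, hn, hmain⟩ := st_core (k := k) P ι hι (wdist S) wdist_self wdist_mul_left
    (wdist_comm hSg) (fun m => (ball_finite hS hSg (1 : G) m)) Y hinv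
    ⟨F, hF, fun y hy => by
      obtain ⟨p, hp, hpy⟩ := hFY y hy
      exact ⟨p⁻¹, P.inv_mem hp, p * y, hpy, by rw [inv_mul_cancel_left]⟩⟩ (max r r0)
    (fun x hx y hy => qa1_cconn_mono (le_max_right r r0) hr0 x hx y hy)
  refine ⟨n, (le_max_left _ _).trans hn, fun φ hφ hfin => ?_⟩
  obtain ⟨f, hf⟩ := hmain φ (hfin.subset fun p hp => ⟨hp.1.1, hp.1.2.1, hp.1.2.2, hp.2⟩) hφ
  exact ⟨f, fun x hx y hy hxy => hf x hx y hy (hxy.trans (le_max_left _ _))⟩

/-- finite cocycles on `G` have finite primitives -/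
theorem ta2 : TA2 := by
  intro G _ S hS hSg hone k _ hst r
  obtain ⟨hinf, hend⟩ := hone
  obtain ⟨n, hn, hst⟩ := hst (max r 1)
  have hr : r ≤ max r 1 := le_max_left _ _
  have h1 : 1 ≤ max r 1 := le_max_right _ _
  refine ⟨n, hr.trans hn, fun φ hφ hfin => ?_⟩
  obtain ⟨f, hf⟩ := hst φ hφ hfin
  set A : Set (G × G) := {p : G × G | p.1 ∈ (Set.univ : Set G) ∧ p.2 ∈ (Set.univ : Set G) ∧
    wdist S p.1 p.2 ≤ n ∧ φ p.1 p.2 ≠ 0} with hAdef
  have hAf : A.Finite := hfin
  set Z : Set G := Prod.fst '' A with hZ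
  have hZf : Z.Finite := hAf.image _
  obtain ⟨E, hE, hjoin⟩ := hend Z hZf
  have hconst : ∀ x ∉ E, ∀ y ∉ E, f x = f y := by
    intro x hx y hy
    have hj := hjoin x hx y hy
    unfold JoinedOff at hj
    clear hy
    induction hj with
    | refl => rfl
    | @tail b c _ hbc ih =>
      obtain ⟨⟨s, hs, hbc'⟩, hb, hc⟩ := hbc
      have hd : wdist S b c ≤ 1 := by
        rcases hbc' with h | h
        · rw [h]; exact wdist_gen hs b
        · rw [wdist_comm hSg, h]; exact wdist_gen hs c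
      have h2 : φ b c = 0 := by
        by_contra h3
        exact hb ⟨(b, c), ⟨Set.mem_univ _, Set.mem_univ _, hd.trans (h1.trans hn), h3⟩, rfl⟩
      have h3 := hf b (Set.mem_univ _) c (Set.mem_univ _) (hd.trans h1)
      rw [h2] at h3
      have h4 : f b = f c := (sub_eq_zero.1 h3.symm).symm
      exact ih.trans h4
  obtain ⟨x0, hx0⟩ := hE.exists_notMem
  refine ⟨fun x => f x - f x0, hE.subset ?_, ?_⟩
  · intro x hx
    by_contra hxE
    apply hx
    show f x - f x0 = 0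
    rw [hconst x hxE x0 hx0, sub_self]
  · intro x hx y hy hxy
    rw [hf x hx y hy (hxy.trans hr)]
    ring

end Pool.Agent.QE
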