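import Pool.Agent.QE.Stm
import Pool.Agent.QD.Asm

/-!
# Assembly of the project QE (MP_bbdce3_al)
-/

set_option autoImplicit false

namespace Pool.Agent.QE

open Pool.Agent.QIS Pool.Agent.QD MulAction

/-- the class is closed under subgroups -/
theorem dtype_of_le {G : Type} [Group G] {k : Type} [Field k] {A P : Subgroup G} (h : P ≤ A)
    (hA : DType k A) : DType k P := by
  obtain ⟨D, hD, ι, hι⟩ := hA
  refine ⟨D, hD, ι.comp (MonoidAlgebra.mapDomainRingHom k (Subgroup.inclusion h)), ?_⟩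
  exact hι.comp (MonoidAlgebra.mapDomain_injective (Subgroup.inclusion_injective h))

theorem tfs_of_dtype (a8 : SA8) {G : Type} [Group G] {k : Type} [Field k] {P : Subgroup G}
    (hP : DType k P) : TFs P := by
  obtain ⟨D, hD, ι, hι⟩ := hP
  intro g hg hg1 n hn h
  refine a8 P k D ι hι ⟨g, hg⟩ (fun h1 => hg1 (congrArg Subtype.val h1)) n hn ?_
  exact Subtype.ext h

/-- the main step -/
theorem sm1 (ta1 : TA1) (a8 : SA8) (b3 : SB3) (b4 : SB4) (b9 : SB9) (b11 : SB11) (b12 : SB12)
    (c3 : SC3) (c4 : SC4) (c7 : SC7) (c8 : SC8) (c17 : SC17) : SM1 := by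
  intro G _ S hS hSg hone k _ hpfs A hA
  have hA' := hA
  obtain ⟨D, hD, ι, hι⟩ := hA'
  have key : ∀ (m : ℕ) (P : Subgroup G) (HH : Set (Set G)), P ≤ A →
      rk ι (P.comap A.subtype) = m → Piece S P HH →
      ¬ Group.IsFinitelyPresented P → ∃ (P' : Subgroup G) (HH' : Set (Set G)),
        Piece S P' HH' ∧ ∀ H ∈ HH', Uncr S H := by
    intro m
    induction m using Nat.strong_induction_on with
    | _ m ih =>
      intro P HH hPA hm hP hfp
      by_cases hall : ∀ H ∈ HH, Uncr S H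
      · exact ⟨P, HH, hP, hall⟩
      push Not at hall
      obtain ⟨H₀, hH₀, hcr⟩ := hall
      have hdt : DType k P := dtype_of_le hPA hA
      have hst : StP S k P := ta1 G S hS hSg k P hdt
      have htf : TFs P := tfs_of_dtype a8 hdt
      obtain ⟨s₁, hs₁⟩ := b3 G S hS hSg hone k hpfs P HH hP H₀ hH₀
      obtain ⟨m₁, hm₁⟩ := hs₁ (max s₁ 1) (le_max_left _ _)
      obtain ⟨m₂, hm₂⟩ := b4 G S hS hSg hone k hpfs P hst HH hP H₀ hH₀ (max s₁ 1)
        (le_max_right _ _)
      obtain ⟨n₁, hn₁⟩ := hm₁ (max m₁ m₂) (le_max_left _ _)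
      obtain ⟨n₂, hn₂⟩ := hm₂ (max m₁ m₂) (le_max_right _ _)
      have hbad : Bad S k HH (max s₁ 1) (max m₁ m₂) (max n₁ n₂) H₀ := by
        by_contra hb
        exact hcr (hn₁ _ (le_max_left _ _) hb)
      obtain ⟨r, E, hE⟩ := hn₂ _ (le_max_right _ _) hbad
      obtain ⟨r', A', hA', hnest, hfin⟩ := b9 G S hS hSg hone k hpfs P htf HH hP _ _ _ hE
      obtain ⟨t⟩ := b11 G S hS hSg P htf HH hP _ _ _ hA' hnest hfin
      have hu : ∃ u : t.E.V, ¬ Group.IsFinitelyPresented (stabilizer P u) := by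
        by_contra hcon
        push Not at hcon
        refine hfp (c8 P t.E ?_ (hcon _) (hcon _))
        rw [t.triv]
        exact Subgroup.FG.bot
      obtain ⟨u, hu⟩ := hu
      have : Nonempty t.E.V := ⟨u⟩
      obtain ⟨π, hπ⟩ := c3 G P t.E.V
      obtain ⟨h1, h2, h3, h4, h5, h6⟩ := c4 G S hS hSg P HH hP t π hπ u
      have hpiece : Piece S (Sb t u) (HHu t π u) :=
        ⟨h1, h2, c17 G S hS hSg hone P htf HH hP t π hπ u hu, h3, h4, h5, h6⟩
      have hlt : rk ι ((Sb t u).comap A.subtype) < m := by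
        rw [← hm]
        exact c7 G A A.subtype A.subtype_injective k D ι hι P
          (by rw [Subgroup.range_subtype]; exact hPA) (b12 G S hS hSg P HH hP) t.E t.triv u
      have hle : Sb t u ≤ A := by
        refine le_trans ?_ hPA
        rintro _ ⟨p, -, rfl⟩
        exact p.2
      refine ih _ hlt (Sb t u) (HHu t π u) hle rfl hpiece fun hc => hu ?_
      exact fp_of_equiv ((stabilizer P u).equivMapOfInjective P.subtype
        (Subgroup.subtype_injective P)).symm hc
  intro P HH hPA hP hfp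
  exact key _ P HH hPA rfl hP hfp

end Pool.Agent.QE
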