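import Pool.Agent.QE.Stm
import Pool.Agent.QD.B0c
import Pool.Agent.QD.B10

/-!
# The tree with lines (row B11 of the project QD, MP_bbdce3_al)
-/

set_option autoImplicit false

namespace Pool.Agent.QE

open Pool.Agent.QIS Pool.Agent.QD MulAction

/-! ### positions along the orbit of an element of infinite order -/

section line

variable {P : Type} [Group P]

private theorem b11_zinj {c : P} (hc : ∀ n : ℕ, 0 < n → c ^ n ≠ 1) {a b : ℤ}
    (h : c ^ a = c ^ b) : a = b := by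
  have key : ∀ a b : ℤ, a < b → c ^ a ≠ c ^ b := by
    intro a b hab h
    have h1 : c ^ (b - a) = 1 := by rw [zpow_sub, h, mul_inv_cancel]
    have h2 : c ^ (b - a).toNat = 1 := by
      rw [← zpow_natCast, Int.toNat_of_nonneg (by omega), h1]
    exact hc _ (by omega) h2
  rcases lt_trichotomy a b with h1 | h1 | h1
  · exact absurd h (key a b h1)
  · exact h1
  · exact absurd h.symm (key b a h1)

private theorem b11_inv {c : P} (hc : ∀ n : ℕ, 0 < n → c ^ n ≠ 1) :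
    ∀ n : ℕ, 0 < n → c⁻¹ ^ n ≠ 1 := by
  intro n hn h
  rw [inv_pow, inv_eq_one] at h
  exact hc n hn h

/-- the positive end of an orbit does not depend on the point -/
private theorem b11_ple (E : Splitting P) (hE : E.edgeGroup = ⊥) {c : P}
    (hc : ∀ n : ℕ, 0 < n → c ^ n ≠ 1) (v v' x y : E.V) (hxy : E.T.Adj x y)
    (h : PlE E.T c v x y) : PlE E.T c v' x y := by
  have hstab : ∀ g : P, g • x = x → g • y = y → g = 1 := by
    intro g h1 h2
    obtain ⟨t, ht | ht⟩ := E.edge_trans hxy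
    · have h3 : t⁻¹ * g * t ∈ E.edgeGroup := by
        refine Subgroup.mem_inf.2 ⟨mem_stabilizer_iff.2 ?_, mem_stabilizer_iff.2 ?_⟩
        · rw [mul_smul, mul_smul, ht.1, h1, ← ht.1, inv_smul_smul]
        · rw [mul_smul, mul_smul, ht.2, h2, ← ht.2, inv_smul_smul]
      rw [hE, Subgroup.mem_bot] at h3
      have h4 : g = t * (t⁻¹ * g * t) * t⁻¹ := by group
      rw [h4, h3, mul_one, mul_inv_cancel]
    · have h3 : t⁻¹ * g * t ∈ E.edgeGroup := by
        refine Subgroup.mem_inf.2 ⟨mem_stabilizer_iff.2 ?_, mem_stabilizer_iff.2 ?_⟩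
        · rw [mul_smul, mul_smul, ht.1, h2, ← ht.1, inv_smul_smul]
        · rw [mul_smul, mul_smul, ht.2, h1, ← ht.2, inv_smul_smul]
      rw [hE, Subgroup.mem_bot] at h3
      have h4 : g = t * (t⁻¹ * g * t) * t⁻¹ := by group
      rw [h4, h3, mul_one, mul_inv_cancel]
  have hfin : {i : ℤ | side E.T y x (c ^ i • v) ∧ ¬ side E.T y x (c ^ i • v')}.Finite := by
    refine Set.Finite.of_finite_image ((side_finite E.tree v v').subset
      (?_ : (fun i : ℤ => (c ^ (-i) • y, c ^ (-i) • x)) '' _ ⊆ _)) ?_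
    · rintro _ ⟨i, ⟨h1, h2⟩, rfl⟩
      refine ⟨E.map_adj _ hxy.symm, ?_, ?_⟩
      · have := (side_map E.map_adj (c ^ (-i)) y x (c ^ i • v)).2 h1
        rwa [smul_smul, ← zpow_add, neg_add_cancel, zpow_zero, one_smul] at this
      · intro h3
        apply h2
        rw [← side_map E.map_adj (c ^ (-i)), smul_smul, ← zpow_add, neg_add_cancel, zpow_zero,
          one_smul]
        exact h3
    · intro i _ j _ hij
      have h1 : c ^ (-i) • y = c ^ (-j) • y := congrArg Prod.fst hij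
      have h2 : c ^ (-i) • x = c ^ (-j) • x := congrArg Prod.snd hij
      have h3 : c ^ (j - i) = 1 := by
        apply hstab
        · rw [sub_eq_add_neg, zpow_add, mul_smul, h2, smul_smul, ← zpow_add, add_neg_cancel,
            zpow_zero, one_smul]
        · rw [sub_eq_add_neg, zpow_add, mul_smul, h1, smul_smul, ← zpow_add, add_neg_cancel,
            zpow_zero, one_smul]
      have h4 : j - i = 0 := b11_zinj hc (by rw [h3, zpow_zero])
      omega
  obtain ⟨M, hM⟩ := hfin.bddAbove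
  obtain ⟨i₀, hi₀⟩ := h
  refine ⟨max i₀ (M + 1), fun i hi => ?_⟩
  by_contra hcon
  have h1 := hM ⟨hi₀ i ((le_max_left _ _).trans hi), hcon⟩
  have h2 := (le_max_right i₀ (M + 1)).trans hi
  omega

private theorem b11_crs (E : Splitting P) (hE : E.edgeGroup = ⊥) {c : P}
    (hc : ∀ n : ℕ, 0 < n → c ^ n ≠ 1) (v x y : E.V) (hxy : E.T.Adj x y) :
    Crs E.T c x y ↔ (PlE E.T c v x y ∧ PlE E.T c⁻¹ v y x) ∨
      (PlE E.T c v y x ∧ PlE E.T c⁻¹ v x y) := by
  refine ⟨fun h => h v, fun h v' => ?_⟩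
  have hc' := b11_inv hc
  rcases h with ⟨h1, h2⟩ | ⟨h1, h2⟩
  · exact Or.inl ⟨b11_ple E hE hc v v' x y hxy h1, b11_ple E hE hc' v v' y x hxy.symm h2⟩
  · exact Or.inr ⟨b11_ple E hE hc v v' y x hxy.symm h1, b11_ple E hE hc' v v' x y hxy h2⟩

end line

section

variable {G : Type} [Group G]

/-- the action on an invariant set -/
@[reducible] private def b11_act (P : Subgroup G) (Y : Set G) (hY : Inv P Y) : MulAction P Y where
  smul p x := ⟨(p : G) * x.1, hY p p.2 x.1 x.2⟩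
  one_smul x := Subtype.ext (one_mul x.1)
  mul_smul p q x := Subtype.ext (mul_assoc (p : G) q x.1)

private theorem b11_tl_inv (g : G) (H : Set G) : tl g (tl g⁻¹ H) = H := by
  ext x
  simp [tl]

private theorem b11_tl_inv' (g : G) (H : Set G) : tl g⁻¹ (tl g H) = H := by
  ext x
  simp [tl]

/-- B11: the tree with lines -/
theorem sb11 (b0a : SB0a) (b0b : SB0b) (b1 : SB1) (b6 : SB6) : SB11 := by
  intro G _ S hS hSg P htf HH hP s r A hA hnest hfin
  classical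
  obtain ⟨hinv, hcof, -⟩ := b1 G S hS hSg P HH hP s
  obtain ⟨c, Λ, h6⟩ := b6 G S hS hSg P htf HH hP
  have hbd : ∀ R, FinBd S (Yr S s HH) R A :=
    b0a G S hS hSg P _ hinv hcof r hA.conn A hA.fin
  set Y : Set G := Yr S s HH with hY
  let _ : MulAction P Y := b11_act P Y hinv
  have hsm : ∀ (p : P) (x : Y), (p • x).1 = (p : G) * x.1 := fun _ _ => rfl
  have hHS : ∀ H ∈ HH, HS S H (c H : G) := fun H hH => (h6 H hH).1
  have hord : ∀ H ∈ HH, ∀ n : ℕ, 0 < n → c H ^ n ≠ 1 := by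
    intro H hH n hn h
    apply (hHS H hH).ord n hn
    rw [← Subgroup.coe_pow, h, Subgroup.coe_one]
  have hpt : ∀ H ∈ HH, ∃ y, y ∈ Strip S s H := by
    intro H hH
    obtain ⟨y, ⟨h1, z, h2, h3⟩, -⟩ := (h6 H hH).2.2.2.1
    exact ⟨y, h1, z, h2, h3.trans hA.hs1⟩
  have hstr : ∀ H ∈ HH, ∀ y ∈ Strip S s H, ∀ i : ℤ, (c H : G) ^ i * y ∈ Y := by
    intro H hH y hy i
    exact b0c_sub hP.disj hH (b0c_strip (hHS H hH).inv i hy)
  -- the cut as a subset of `Y`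
  let A' : Set Y := {x | x.1 ∈ A}
  have htr : ∀ (h : P) (x : Y), x ∈ tr h A' ↔ x.1 ∈ tl (h : G) A := by
    intro h x
    show ((h⁻¹ : P) : G) * x.1 ∈ A ↔ (h : G)⁻¹ * x.1 ∈ A
    rw [Subgroup.coe_inv]
  have hnest' : ∀ h : P, Nested A' (tr h A') := by
    intro h
    rcases hnest h h.2 with h1 | h1 | h1 | h1
    · exact Or.inl fun x hx => (htr h x).2 (h1 hx)
    · exact Or.inr (Or.inl fun x hx hx' => Set.disjoint_left.1 h1 hx ((htr h x).1 hx'))
    · refine Or.inr (Or.inr (Or.inl fun x hx => (htr h x).2 ?_))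
      exact (h1 x.2).resolve_left hx
    · exact Or.inr (Or.inr (Or.inr fun x hx hx' => hx (h1 ((htr h x).1 hx'))))
  have hfin' : ∀ x y : Y, {B : Set Y | (∃ h : P, B = tr h A') ∧ x ∈ B ∧ y ∉ B}.Finite := by
    intro x y
    refine ((hfin x.1 x.2 y.1 y.2).image (fun B => {z : Y | z.1 ∈ B})).subset ?_
    rintro _ ⟨⟨h, rfl⟩, h1, h2⟩
    refine ⟨tl (h : G) A, ⟨⟨h, h.2, rfl⟩, (htr h x).1 h1, fun h3 => h2 ((htr h y).2 h3)⟩, ?_⟩
    ext z
    exact (htr h z).symm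
  -- a line that is separated
  obtain ⟨H₀, hH₀, H₁, hH₁, hne, htwo⟩ := hA.two
  obtain ⟨d, y, hd, hyY, ⟨i₀, hi₀⟩, i₁, hi₁⟩ : ∃ (d : P) (y : G), (∀ n : ℕ, 0 < n → d ^ n ≠ 1) ∧
      (∀ i : ℤ, (d : G) ^ i * y ∈ Y) ∧ (∃ i₀ : ℤ, ∀ i, i₀ ≤ i → (d : G) ^ i * y ∈ A) ∧
      ∃ i₁ : ℤ, ∀ i, i ≤ i₁ → (d : G) ^ i * y ∉ A := by
    obtain ⟨y, hy⟩ := hpt H₀ hH₀
    have h1 : Sep S s H₀ A := (htwo H₀ hH₀).2 (Or.inl rfl)
    have h2 := (b0b G S hS hSg P HH hP s A hbd H₀ hH₀ (c H₀) y (hHS H₀ hH₀) hy).2.2.1.1 h1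
    rcases h2 with ⟨⟨i₀, hi₀⟩, i₁, hi₁⟩ | ⟨⟨i₀, hi₀⟩, i₁, hi₁⟩
    · exact ⟨c H₀, y, hord H₀ hH₀, hstr H₀ hH₀ y hy, ⟨i₀, hi₀⟩, i₁, hi₁⟩
    · refine ⟨(c H₀)⁻¹, y, b11_inv (hord H₀ hH₀), ?_, ⟨-i₁, ?_⟩, -i₀, ?_⟩
      · intro i
        rw [Subgroup.coe_inv, inv_zpow']
        exact hstr H₀ hH₀ y hy (-i)
      · intro i hi
        rw [Subgroup.coe_inv, inv_zpow']
        exact hi₁ (-i) (by omega)
      · intro i hi
        rw [Subgroup.coe_inv, inv_zpow']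
        exact hi₀ (-i) (by omega)
  let u : ℤ → Y := fun i => ⟨(d : G) ^ i * y, hyY i⟩
  have hu0 : ∀ i, i₀ ≤ i → u i ∈ A' := hi₀
  have hu1 : ∀ i, i ≤ i₁ → u i ∉ A' := hi₁
  have hutr : ∀ (n i : ℤ), u i ∈ tr (d ^ n) A' ↔ u (i - n) ∈ A' := by
    intro n i
    rw [htr]
    show ((d ^ n : P) : G)⁻¹ * ((d : G) ^ i * y) ∈ A ↔ (d : G) ^ (i - n) * y ∈ A
    rw [Subgroup.coe_zpow, ← mul_assoc, ← zpow_neg, ← zpow_add, neg_add_eq_sub]
  have hAne : A'.Nonempty := ⟨u i₀, hu0 _ le_rfl⟩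
  have hAne' : A'ᶜ.Nonempty := ⟨u i₁, hu1 _ le_rfl⟩
  have hi01 : i₁ < i₀ := by
    by_contra h
    exact hu1 i₀ (by omega) (hu0 _ le_rfl)
  have key : ∀ n : ℤ, tr (d ^ n) A' ⊆ A' ∨ A' ⊆ tr (d ^ n) A' := by
    intro n
    have e1 : u (max i₀ (i₀ + n)) ∈ A' := hu0 _ (le_max_left _ _)
    have e2 : u (max i₀ (i₀ + n)) ∈ tr (d ^ n) A' := by
      rw [hutr]
      apply hu0
      have := le_max_right i₀ (i₀ + n)
      omega
    have e3 : u (min i₁ (i₁ + n)) ∉ A' := hu1 _ (min_le_left _ _)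
    have e4 : u (min i₁ (i₁ + n)) ∉ tr (d ^ n) A' := by
      rw [hutr]
      apply hu1
      have := min_le_right i₁ (i₁ + n)
      omega
    rcases hnest' (d ^ n) with h | h | h | h
    · exact Or.inr h
    · exact absurd e2 (h e1)
    · exact absurd (h e3) e4
    · exact Or.inl (Set.compl_subset_compl.1 h)
  have hdn : tr (d ^ (i₀ - i₁)) A' ⊂ A' := by
    have h1 : u i₀ ∉ tr (d ^ (i₀ - i₁)) A' := by
      rw [hutr]
      exact hu1 _ (by omega)
    rcases key (i₀ - i₁) with h | h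
    · exact ⟨h, fun h2 => h1 (h2 (hu0 _ le_rfl))⟩
    · exact absurd (h (hu0 _ le_rfl)) h1
  have hup : A' ⊂ tr (d ^ (i₁ - i₀)) A' := by
    have h1 : u i₁ ∈ tr (d ^ (i₁ - i₀)) A' := by
      rw [hutr]
      exact hu0 _ (by omega)
    rcases key (i₁ - i₀) with h | h
    · exact absurd (h h1) (hu1 _ le_rfl)
    · exact ⟨h, fun h2 => hu1 _ le_rfl (h2 h1)⟩
  obtain ⟨E, π, hπ, hedge, hside⟩ := sb10 P Y A' hnest' hfin' hAne hAne' ⟨_, Or.inl hdn⟩
    ⟨_, Or.inr (⟨Set.compl_subset_compl.2 hup.1, fun h => hup.2 (Set.compl_subset_compl.1 h)⟩)⟩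
  -- the edge group is trivial
  have htriv : E.edgeGroup = ⊥ := by
    rw [Subgroup.eq_bot_iff_forall]
    intro g hg
    rw [hedge] at hg
    by_contra hg1
    have hg1' : (g : G) ≠ 1 := fun h => hg1 (Subtype.ext h)
    have hgo := htf (g : G) g.2 hg1'
    have hpow : ∀ (n : ℕ) (x : Y), (g : G) ^ n * x.1 ∈ A ↔ x.1 ∈ A := by
      have h1 : ∀ x : Y, (g : G) * x.1 ∈ A ↔ x.1 ∈ A := by
        intro x
        have h2 : (g • x) ∈ tr g A' ↔ x ∈ A' := Q4.mem_tr g A' x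
        rw [hg] at h2
        exact h2
      intro n
      induction n with
      | zero => intro x; rw [pow_zero, one_mul]
      | succ n ih =>
        intro x
        rw [pow_succ, mul_assoc]
        exact (ih (g • x)).trans (h1 x)
    have hmem : ∀ (n : ℕ) (x : Y), (g : G) ^ n * x.1 ∈ Y := by
      intro n x
      have := hinv ((g ^ n : P) : G) (g ^ n).2 x.1 x.2
      rwa [Subgroup.coe_pow] at this
    have hfb := hbd (wdist S (u i₀).1 (u i₁).1)
    refine Set.infinite_of_injective_forall_mem (f := fun n : ℕ =>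
      ((g : G) ^ n * (u i₀).1, (g : G) ^ n * (u i₁).1)) ?_ ?_ hfb
    · intro m n hmn
      have h1 : (g : G) ^ m = (g : G) ^ n := mul_right_cancel (congrArg Prod.fst hmn)
      have h2 : (g : G) ^ (m : ℤ) = (g : G) ^ (n : ℤ) := by
        rw [zpow_natCast, zpow_natCast, h1]
      exact_mod_cast b11_zinj hgo h2
    · intro n
      refine ⟨hmem n _, hmem n _, ?_, (hpow n _).2 (hu0 _ le_rfl), fun h =>
        hu1 _ le_rfl ((hpow n _).1 h)⟩
      show wdist S ((g : G) ^ n * (u i₀).1) ((g : G) ^ n * (u i₁).1) ≤ _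
      rw [wdist_mul_left]
  -- the lines that cross the translates of the base edge
  have hcrs : ∀ H ∈ HH, ∀ h : P, Crs E.T (c H) (h • E.a) (h • E.b) ↔
      Sep S s (tl ((h : G)⁻¹) H) A := by
    intro H hH h
    obtain ⟨z, hz⟩ := hpt H hH
    let w : ℤ → Y := fun i => ⟨(c H : G) ^ i * z, hstr H hH z hz i⟩
    have hadj : E.T.Adj (h • E.a) (h • E.b) := E.map_adj h E.adj
    rw [b11_crs E htriv (hord H hH) (π (w 0)) _ _ hadj]
    have hw : ∀ i : ℤ, c H ^ i • π (w 0) = π (w i) := by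
      intro i
      rw [← hπ]
      congr 1
      apply Subtype.ext
      show ((c H ^ i : P) : G) * ((c H : G) ^ (0 : ℤ) * z) = (c H : G) ^ i * z
      rw [zpow_zero, one_mul, Subgroup.coe_zpow]
    have hH' : tl ((h : G)⁻¹) H ∈ HH := hP.inv _ (P.inv_mem h.2) H hH
    have hcH' : c (tl ((h : G)⁻¹) H) = h⁻¹ * c H * h := by
      have := (h6 H hH).2.2.1 h⁻¹
      rw [Subgroup.coe_inv, inv_inv] at this
      exact this
    have hz' : (h : G)⁻¹ * z ∈ Strip S s (tl ((h : G)⁻¹) H) := by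
      obtain ⟨h1, z', h2, h3⟩ := hz
      refine ⟨?_, (h : G)⁻¹ * z', ?_, ?_⟩
      · show (h : G)⁻¹⁻¹ * ((h : G)⁻¹ * z) ∈ H
        rwa [inv_inv, mul_inv_cancel_left]
      · show (h : G)⁻¹⁻¹ * ((h : G)⁻¹ * z') ∉ H
        rwa [inv_inv, mul_inv_cancel_left]
      · rw [wdist_mul_left]
        exact h3
    rw [(b0b G S hS hSg P HH hP s A hbd _ hH' _ _ (hHS _ hH') hz').2.2.1]
    have hin : ∀ i : ℤ, (c (tl ((h : G)⁻¹) H) : G) ^ i * ((h : G)⁻¹ * z) ∈ A ↔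
        side E.T (h • E.a) (h • E.b) (π (w i)) := by
      intro i
      rw [← hside, htr, hcH']
      have e1 : ((h⁻¹ * c H * h : P) : G) ^ i = (h : G)⁻¹ * (c H : G) ^ i * (h : G) := by
        rw [Subgroup.coe_mul, Subgroup.coe_mul, Subgroup.coe_inv]
        have := conj_zpow (i := i) (a := (h : G)⁻¹) (b := (c H : G))
        rw [inv_inv] at this
        exact this
      rw [e1]
      show _ ↔ (h : G)⁻¹ * ((c H : G) ^ i * z) ∈ A
      rw [mul_assoc, mul_inv_cancel_left, mul_assoc]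
    have hin' : ∀ i : ℤ, (c (tl ((h : G)⁻¹) H) : G) ^ i * ((h : G)⁻¹ * z) ∉ A ↔
        side E.T (h • E.b) (h • E.a) (π (w i)) := by
      intro i
      rw [side_swap E.tree hadj, hin]
    have p1 : PlE E.T (c H) (π (w 0)) (h • E.b) (h • E.a) ↔
        ∃ i₀ : ℤ, ∀ i, i₀ ≤ i → (c (tl ((h : G)⁻¹) H) : G) ^ i * ((h : G)⁻¹ * z) ∈ A := by
      refine exists_congr fun i₀ => forall_congr' fun i => imp_congr_right fun _ => ?_
      rw [hw, hin]
    have p2 : PlE E.T (c H) (π (w 0)) (h • E.a) (h • E.b) ↔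
        ∃ i₀ : ℤ, ∀ i, i₀ ≤ i → (c (tl ((h : G)⁻¹) H) : G) ^ i * ((h : G)⁻¹ * z) ∉ A := by
      refine exists_congr fun i₀ => forall_congr' fun i => imp_congr_right fun _ => ?_
      rw [hw, hin']
    have p3 : PlE E.T (c H)⁻¹ (π (w 0)) (h • E.b) (h • E.a) ↔
        ∃ i₀ : ℤ, ∀ i, i ≤ i₀ → (c (tl ((h : G)⁻¹) H) : G) ^ i * ((h : G)⁻¹ * z) ∈ A := by
      constructor
      · rintro ⟨i₀, hi⟩
        refine ⟨-i₀, fun i hi' => ?_⟩
        have := hi (-i) (by omega)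
        rwa [inv_zpow', neg_neg, hw, ← hin] at this
      · rintro ⟨i₀, hi⟩
        refine ⟨-i₀, fun i hi' => ?_⟩
        rw [inv_zpow', hw, ← hin]
        exact hi (-i) (by omega)
    have p4 : PlE E.T (c H)⁻¹ (π (w 0)) (h • E.a) (h • E.b) ↔
        ∃ i₀ : ℤ, ∀ i, i ≤ i₀ → (c (tl ((h : G)⁻¹) H) : G) ^ i * ((h : G)⁻¹ * z) ∉ A := by
      constructor
      · rintro ⟨i₀, hi⟩
        refine ⟨-i₀, fun i hi' => ?_⟩
        have := hi (-i) (by omega)
        rwa [inv_zpow', neg_neg, hw, ← hin'] at this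
      · rintro ⟨i₀, hi⟩
        refine ⟨-i₀, fun i hi' => ?_⟩
        rw [inv_zpow', hw, ← hin']
        exact hi (-i) (by omega)
    rw [p1, p2, p3, p4, SepAt]
    exact or_comm
  have hsymm : ∀ (g : P) (x y : E.V), Crs E.T g x y ↔ Crs E.T g y x := by
    intro g x y
    exact forall_congr' fun v => or_comm
  refine ⟨⟨E, htriv, c, hHS, fun H hH => (h6 H hH).2.1, fun p H hH => (h6 H hH).2.2.1 p, ?_⟩⟩
  have hbase : ∀ h : P, ∃ H₀ ∈ HH, ∃ H₁ ∈ HH, H₀ ≠ H₁ ∧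
      ∀ H ∈ HH, Crs E.T (c H) (h • E.a) (h • E.b) ↔ (H = H₀ ∨ H = H₁) := by
    intro h
    have hiff : ∀ H K : Set G, tl ((h : G)⁻¹) H = K ↔ H = tl (h : G) K := by
      intro H K
      constructor
      · rintro rfl
        exact (b11_tl_inv (h : G) H).symm
      · rintro rfl
        exact b11_tl_inv' (h : G) K
    refine ⟨tl (h : G) H₀, hP.inv _ h.2 _ hH₀, tl (h : G) H₁, hP.inv _ h.2 _ hH₁, ?_, ?_⟩
    · intro he
      apply hne
      have := congrArg (tl ((h : G)⁻¹)) he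
      rwa [b11_tl_inv', b11_tl_inv'] at this
    · intro H hH
      rw [hcrs H hH h, htwo _ (hP.inv _ (P.inv_mem h.2) H hH), hiff, hiff]
  intro x y hxy
  obtain ⟨h, ⟨h1, h2⟩ | ⟨h1, h2⟩⟩ := E.edge_trans hxy
  · rw [← h1, ← h2]
    exact hbase h
  · obtain ⟨K₀, hK₀, K₁, hK₁, hK, hK2⟩ := hbase h
    refine ⟨K₀, hK₀, K₁, hK₁, hK, fun H hH => ?_⟩
    rw [← hK2 H hH, hsymm, h1, h2]

end

end Pool.Agent.QE
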