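import Pool.Agent.QE.Stm
import Pool.Agent.QD.PropU

/-!
# Project QE (MP_bbdce3), B3: crossing gives a bad cocycle
-/

set_option autoImplicit false

namespace Pool.Agent.QE

open Pool.Agent.QIS Pool.Agent.QD MulAction

/-- row B3: crossing gives a bad cocycle -/
theorem sb3 (a4 : SA4) (a5 : SA5) (a6 : SA6) (a7 : SA7) (a9 : SA9) (b1 : SB1) :
    SB3 := by
  intro G _ S hS hSg hone k _ hpfs P HH hP H₀ hH₀
  obtain ⟨c₀, -, hc₀⟩ := hP.hs H₀ hH₀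
  obtain ⟨n₀, h7⟩ := a7 G S hS hSg hone k hpfs
  have hc₀' := (a9 G S hS hSg H₀ c₀ hc₀).1
  have hH : ∀ H ∈ HH, PFS S k H := by
    intro H hH
    obtain ⟨c, -, hc⟩ := hP.hs H hH
    exact a4 G S hS hSg k hpfs H c hc
  obtain ⟨s₁, m₁, h⟩ := pu_core (k := k) hS hSg P hP hH₀ hc₀ n₀ h7
    (a6 G S hS hSg k H₀ᶜ c₀ hc₀') (a5 G S hS hSg k P HH hP hH)
    (fun s => (b1 G S hS hSg P HH hP s).2.1)
  exact ⟨s₁, fun s hs => ⟨m₁, fun m hm => ⟨0, fun n _ hb => h s hs m hm n hb⟩⟩⟩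

end Pool.Agent.QE
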