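import Pool.Agent.QD.BDefs

/-!
# Splittings over two-ended groups and quasi-isometries: conditions on the vertex groups only

Statements of the rows of the project QE (MP_bbdce3_al).  They are the statements of the project QD
with weaker hypotheses: stability of finite cocycles on the whole group and on the regions of one
subgroup only, and torsion-freeness of one subgroup only.
-/

set_option autoImplicit false

namespace Pool.Agent.QE

open Pool.Agent.QIS Pool.Agent.QD MulAction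

/-- stability for one subgroup -/
def StP {G : Type} [Group G] (S : Set G) (k : Type) [Field k] (P : Subgroup G) : Prop :=
  ∀ Y : Set G, Inv P Y → Cof P Y → (∃ r, CConn S Y r) → PSt S k Y

/-- a torsion-free subgroup -/
def TFs {G : Type} [Group G] (P : Subgroup G) : Prop :=
  ∀ g ∈ P, g ≠ 1 → ∀ n : ℕ, 0 < n → g ^ n ≠ 1

/-- the group algebra over `k` embeds in a division ring -/
def DType (k : Type) [Field k] (A : Type) [Group A] : Prop :=
  ∃ (D : Type) (_ : DivisionRing D) (ι : MonoidAlgebra k A →+* D), Function.Injective ι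

/-! ## stability -/

/-- TA1: subgroups whose group algebra embeds in a division ring are stable -/
def TA1 : Prop := ∀ (G : Type) [Group G] (S : Set G), S.Finite → Subgroup.closure S = ⊤ →
  ∀ (k : Type) [Field k] (P : Subgroup G), DType k P → StP S k P

/-- TFP: finitely presented subgroups are stable -/
def TFP : Prop := ∀ (G : Type) [Group G] (S : Set G), S.Finite → Subgroup.closure S = ⊤ →
  ∀ (k : Type) [Field k] (P : Subgroup G), Group.IsFinitelyPresented P → StP S k P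

/-- TV: stability of a group that acts on a tree with stable vertex groups -/
def TV : Prop := ∀ (G : Type) [Group G] (S : Set G), S.Finite → Subgroup.closure S = ⊤ →
  ∀ (k : Type) [Field k] (V : Type) [MulAction G V] (T : SimpleGraph V), T.IsTree →
    (∀ (g : G) {x y : V}, T.Adj x y → T.Adj (g • x) (g • y)) → Nonempty V →
    (∀ v : V, (stabilizer G v).FG) → (∀ v : V, StP S k (stabilizer G v)) →
    (∀ v w : V, T.Adj v w → (stabilizer G v ⊓ stabilizer G w : Subgroup G).FG) →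
    PSt S k Set.univ

/-- TA2 -/
def TA2 : Prop := ∀ (G : Type) [Group G] (S : Set G), S.Finite → Subgroup.closure S = ⊤ →
  OneEnded S → ∀ (k : Type) [Field k], PSt S k Set.univ → PFS S k Set.univ

/-! ## B: crossing gives nested cuts -/

/-- B3: crossing gives a bad cocycle -/
def SB3 : Prop := ∀ (G : Type) [Group G] (S : Set G), S.Finite → Subgroup.closure S = ⊤ →
  OneEnded S → ∀ (k : Type) [Field k], PFS S k Set.univ → ∀ (P : Subgroup G) (HH : Set (Set G)),
    Piece S P HH → ∀ H₀ ∈ HH, ∃ s₁, ∀ s, s₁ ≤ s → ∃ m₁, ∀ m, m₁ ≤ m → ∃ n₁, ∀ n, n₁ ≤ n →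
      ¬ Bad S k HH s m n H₀ → Uncr S H₀

/-- B4: a bad cocycle gives a cut that crosses exactly two lines -/
def SB4 : Prop := ∀ (G : Type) [Group G] (S : Set G), S.Finite → Subgroup.closure S = ⊤ →
  OneEnded S → ∀ (k : Type) [Field k], PFS S k Set.univ → ∀ (P : Subgroup G), StP S k P →
    ∀ (HH : Set (Set G)), Piece S P HH → ∀ H₀ ∈ HH, ∀ s, 1 ≤ s → ∃ m₂, ∀ m, m₂ ≤ m →
      ∃ n₂, ∀ n, n₂ ≤ n → Bad S k HH s m n H₀ → ∃ (r : ℕ) (E : Set G), IsCut2 S HH s r E

/-- B6: equivariant generators and lines -/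
def SB6 : Prop := ∀ (G : Type) [Group G] (S : Set G), S.Finite → Subgroup.closure S = ⊤ →
  ∀ (P : Subgroup G), TFs P → ∀ (HH : Set (Set G)), Piece S P HH →
    ∃ (c : Set G → P) (Λ : Set G → Set G),
    ∀ H ∈ HH, HS S H (c H : G) ∧ (∀ p : P, tl (p : G) H = H → p ∈ Subgroup.zpowers (c H)) ∧
      (∀ p : P, c (tl (p : G) H) = p * c H * p⁻¹) ∧
      (∃ y ∈ Strip S 1 H, Λ H = {x | ∃ i : ℤ, x = (c H : G) ^ i * y}) ∧
      ∀ p : P, Λ (tl (p : G) H) = tl (p : G) (Λ H)

/-- B8: a cut that crosses at most one line is trivial -/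
def SB8 : Prop := ∀ (G : Type) [Group G] (S : Set G), S.Finite → Subgroup.closure S = ⊤ →
  OneEnded S → ∀ (k : Type) [Field k], PFS S k Set.univ → ∀ (P : Subgroup G) (HH : Set (Set G)),
    Piece S P HH → ∀ s r : ℕ, 1 ≤ s → CConn S (Yr S s HH) r → ∀ E : Set G, E ⊆ Yr S s HH →
      FinBd S (Yr S s HH) r E → (∃ H₁, ∀ H ∈ HH, Sep S s H E → H = H₁) →
        E.Finite ∨ (Yr S s HH \ E).Finite

/-- B9: a nested cut that crosses exactly two lines -/
def SB9 : Prop := ∀ (G : Type) [Group G] (S : Set G), S.Finite → Subgroup.closure S = ⊤ →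
  OneEnded S → ∀ (k : Type) [Field k], PFS S k Set.univ →
    ∀ (P : Subgroup G), TFs P → ∀ (HH : Set (Set G)), Piece S P HH → ∀ (s r : ℕ) (E : Set G),
      IsCut2 S HH s r E → ∃ (r' : ℕ) (A : Set G), IsCut2 S HH s r' A ∧
        (∀ p ∈ P, NestIn (Yr S s HH) A (tl p A)) ∧
        ∀ x ∈ Yr S s HH, ∀ y ∈ Yr S s HH,
          {B : Set G | (∃ p ∈ P, B = tl p A) ∧ x ∈ B ∧ y ∉ B}.Finite

/-- B11: the tree with lines -/
def SB11 : Prop := ∀ (G : Type) [Group G] (S : Set G), S.Finite → Subgroup.closure S = ⊤ →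
  ∀ (P : Subgroup G), TFs P → ∀ (HH : Set (Set G)), Piece S P HH → ∀ (s r : ℕ) (A : Set G),
    IsCut2 S HH s r A → (∀ p ∈ P, NestIn (Yr S s HH) A (tl p A)) →
    (∀ x ∈ Yr S s HH, ∀ y ∈ Yr S s HH,
      {B : Set G | (∃ p ∈ P, B = tl p A) ∧ x ∈ B ∧ y ∉ B}.Finite) → Nonempty (LT S P HH)

/-! ## C: the new pieces -/

/-- C2: the chain of lines around a vertex -/
def SC2 : Prop := ∀ (G : Type) [Group G] (S : Set G), S.Finite → Subgroup.closure S = ⊤ →
  ∀ (P : Subgroup G) (HH : Set (Set G)), Piece S P HH → ∀ (t : LT S P HH) (u z : t.E.V),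
    t.E.T.Adj u z → ∃ q : P, q • u = u ∧ Rch t u (Sum.inl z) (Sum.inl (q • z)) ∧
      ∃ F : Set t.E.V, F.Finite ∧ ∀ z', t.E.T.Adj u z' → Rch t u (Sum.inl z) (Sum.inl z') →
        ∃ i : ℤ, q ^ i • z' ∈ F

/-- C4: the new half-spaces, without the half-space property -/
def SC4 : Prop := ∀ (G : Type) [Group G] (S : Set G), S.Finite → Subgroup.closure S = ⊤ →
  ∀ (P : Subgroup G) (HH : Set (Set G)), Piece S P HH → ∀ (t : LT S P HH) (π : G → t.E.V),
    (∀ (p : P) (x : G), π ((p : G) * x) = p • π x) → ∀ u : t.E.V,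
      (∀ p ∈ Sb t u, ∀ H ∈ HHu t π u, tl p H ∈ HHu t π u) ∧
      (∀ H ∈ HHu t π u, ∀ H' ∈ HHu t π u, H ≠ H' → Disjoint H H') ∧
      (∃ F : Set (Set G), F.Finite ∧ ∀ H ∈ HHu t π u, ∃ p ∈ Sb t u, tl p H ∈ F) ∧
      (∃ F : Set G, F.Finite ∧ ∀ x, (∀ H ∈ HHu t π u, x ∉ H) → ∃ p ∈ Sb t u, p * x ∈ F) ∧
      (∀ g, g ∉ Sb t u → ∃ H ∈ HHu t π u, ∃ H' ∈ HHu t π u, (tl g H')ᶜ ⊆ H) ∧
      (HHu t π u).Nonempty

/-- C5: the boundaries of the new half-spaces -/
def SC5 : Prop := ∀ (G : Type) [Group G] (S : Set G), S.Finite → Subgroup.closure S = ⊤ →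
  ∀ (P : Subgroup G) (HH : Set (Set G)), Piece S P HH → ∀ (t : LT S P HH) (π : G → t.E.V),
    (∀ (p : P) (x : G), π ((p : G) * x) = p • π x) → ∀ u z : t.E.V, t.E.T.Adj u z →
      ∀ q : P, q • u = u → Rch t u (Sum.inl z) (Sum.inl (q • z)) →
      (∃ F : Set t.E.V, F.Finite ∧ ∀ z', t.E.T.Adj u z' → Rch t u (Sum.inl z) (Sum.inl z') →
        ∃ i : ℤ, q ^ i • z' ∈ F) →
      (∀ x, (q : G) * x ∈ Zc t π u (Sum.inl z) ↔ x ∈ Zc t π u (Sum.inl z)) ∧
      ∀ n : ℕ, ∃ F : Set G, F.Finite ∧ ∀ x y, wdist S x y ≤ n → x ∈ Zc t π u (Sum.inl z) →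
        y ∉ Zc t π u (Sum.inl z) → ∃ i : ℤ, (q : G) ^ i * x ∈ F

/-- C6: the new half-spaces are deep -/
def SC6 : Prop := ∀ (G : Type) [Group G] (S : Set G), S.Finite → Subgroup.closure S = ⊤ →
  ∀ (P : Subgroup G) (HH : Set (Set G)), Piece S P HH → ∀ (t : LT S P HH) (π : G → t.E.V),
    (∀ (p : P) (x : G), π ((p : G) * x) = p • π x) → ∀ u z : t.E.V, t.E.T.Adj u z →
      Infinite (stabilizer P u) → ∀ F : Set G, F.Finite →
        ∃ x ∈ Zc t π u (Sum.inl z), ∀ p ∈ Sb t u, p * x ∉ F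

/-- C17: the new half-spaces are half-spaces -/
def SC17 : Prop := ∀ (G : Type) [Group G] (S : Set G), S.Finite → Subgroup.closure S = ⊤ →
  OneEnded S → ∀ (P : Subgroup G), TFs P → ∀ (HH : Set (Set G)), Piece S P HH →
    ∀ (t : LT S P HH) (π : G → t.E.V), (∀ (p : P) (x : G), π ((p : G) * x) = p • π x) →
      ∀ u : t.E.V, ¬ Group.IsFinitelyPresented (stabilizer P u) →
        ∀ Z ∈ HHu t π u, ∃ c ∈ Sb t u, HS S Z c

/-- C7: the rank of a vertex group is smaller -/
def SC7 : Prop := ∀ (G A : Type) [Group G] [Group A] (j : A →* G), Function.Injective j →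
  ∀ (k D : Type) [Field k] [DivisionRing D] (ι : MonoidAlgebra k A →+* D),
    Function.Injective ι → ∀ P : Subgroup G, P ≤ j.range → P.FG → ∀ E : Splitting P,
      E.edgeGroup = ⊥ → ∀ u : E.V,
        rk ι (((stabilizer P u).map P.subtype).comap j) < rk ι (P.comap j)

/-! ## the target -/

/-- the main step: a piece with uncrossed half-spaces -/
def SM1 : Prop := ∀ (G : Type) [Group G] (S : Set G), S.Finite → Subgroup.closure S = ⊤ →
  OneEnded S → ∀ (k : Type) [Field k], PFS S k Set.univ → ∀ A : Subgroup G, DType k A →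
    ∀ (P : Subgroup G) (HH : Set (Set G)), P ≤ A → Piece S P HH →
      ¬ Group.IsFinitelyPresented P → ∃ (P' : Subgroup G) (HH' : Set (Set G)),
        Piece S P' HH' ∧ ∀ H ∈ HH', Uncr S H

end Pool.Agent.QE
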