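import Pool.Agent.QD.NTwo
import Pool.Agent.QE.Stm

/-!
# QI-B9: nested cuts that cross exactly two lines
-/

set_option autoImplicit false

namespace Pool.Agent.QE

open Pool.Agent.QIS Pool.Agent.QD MulAction

section

variable {G : Type} [Group G]

private lemma b9_tl_one (H : Set G) : tl 1 H = H := by
  ext x
  simp [tl]

private lemma b9_tl_mul (p q : G) (H : Set G) : tl (p * q) H = tl p (tl q H) := by
  ext x
  simp [tl, mul_assoc]

private lemma b9_zpow {c : G} (hc : ∀ n : ℕ, 0 < n → c ^ n ≠ 1) {a b : ℤ} (h : c ^ a = c ^ b) :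
    a = b := by
  have key : ∀ a b : ℤ, a < b → c ^ a ≠ c ^ b := by
    intro a b hab h
    have h1 : c ^ (b - a) = 1 := by rw [zpow_sub, h, mul_inv_cancel]
    have h2 : c ^ (b - a).toNat = 1 := by
      rw [← zpow_natCast, Int.toNat_of_nonneg (by omega), h1]
    exact hc _ (by omega) h2
  rcases lt_trichotomy a b with h1 | h1 | h1
  · exact absurd h (key a b h1)
  · exact h1
  · exact absurd h.symm (key b a h1)

/-- the action on an invariant set -/
@[reducible] private def b9_act (P : Subgroup G) (Y : Set G) (hY : Inv P Y) : MulAction P Y where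
  smul p x := ⟨(p : G) * x.1, hY p p.2 x.1 x.2⟩
  one_smul x := Subtype.ext (one_mul x.1)
  mul_smul p q x := Subtype.ext (mul_assoc (p : G) q x.1)

/-- the action on the half-spaces -/
@[reducible] private def b9_act' (P : Subgroup G) (HH : Set (Set G))
    (h : ∀ p ∈ P, ∀ H ∈ HH, tl p H ∈ HH) : MulAction P HH where
  smul p H := ⟨tl (p : G) H.1, h p p.2 H.1 H.2⟩
  one_smul H := Subtype.ext (b9_tl_one H.1)
  mul_smul p q H := Subtype.ext (b9_tl_mul (p : G) q H.1)

/-- the graph of scale `r` on `Y` -/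
private def b9_gr (S : Set G) (hSg : Subgroup.closure S = ⊤) (Y : Set G) (r : ℕ) :
    SimpleGraph Y where
  Adj a b := a ≠ b ∧ wdist S a.1 b.1 ≤ r
  symm := ⟨fun a b h => ⟨h.1.symm, by rw [wdist_comm hSg]; exact h.2⟩⟩
  loopless := ⟨fun a h => h.1 rfl⟩

private lemma b9_strip {S : Set G} {P : Subgroup G} {HH : Set (Set G)} (hP : Piece S P HH)
    {s : ℕ} {H : Set G} (hH : H ∈ HH) : Strip S s H ⊆ Yr S s HH := by
  rintro x ⟨hx, y, hy, hd⟩ H' hH' hdp
  have hx' : x ∈ H' := by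
    by_contra h
    have := hdp x h
    rw [wdist_self] at this
    omega
  have hHH : H = H' := by
    by_contra hne
    exact Set.disjoint_left.1 (hP.disj H hH H' hH' hne) hx hx'
  subst hHH
  have := hdp y hy
  omega

private lemma b9_strip_inv {S : Set G} {s : ℕ} {H : Set G} {c : G} (h : HS S H c) (i : ℤ) {y : G}
    (hy : y ∈ Strip S s H) : c ^ i * y ∈ Strip S s H := by
  have h1 : ∀ (i : ℤ) x, c ^ i * x ∈ H ↔ x ∈ H := by
    intro i
    induction i using Int.induction_on with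
    | zero => intro x; rw [zpow_zero, one_mul]
    | succ n ih =>
      intro x
      rw [zpow_add_one, mul_assoc, ih, h.inv]
    | pred n ih =>
      intro x
      rw [zpow_sub_one, mul_assoc, ih, ← h.inv (c⁻¹ * x), mul_inv_cancel_left]
  obtain ⟨hyH, z, hz, hd⟩ := hy
  refine ⟨(h1 i y).2 hyH, c ^ i * z, fun hh => hz ((h1 i z).1 hh), ?_⟩
  rw [wdist_mul_left]
  exact hd

/-- B9: a nested cut that crosses exactly two lines -/
theorem sb9 (b0a : SB0a) (b0b : SB0b) (b1 : SB1) (b6 : SB6) (b8 : SB8) : SB9 := by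
  intro G _ S hS hSg hone k _ hst P htf HH hP s r E hE
  classical
  obtain ⟨hinv, hcof, -⟩ := b1 G S hS hSg P HH hP s
  obtain ⟨c, Λ, h6⟩ := b6 G S hS hSg P htf HH hP
  set Y : Set G := Yr S s HH with hY
  let _ : MulAction P Y := b9_act P Y hinv
  let _ : MulAction P HH := b9_act' P HH hP.inv
  let Γ : SimpleGraph Y := b9_gr S hSg Y r
  have hadj : ∀ a b : Y, Γ.Adj a b ↔ a ≠ b ∧ wdist S a.1 b.1 ≤ r := fun a b => Iff.rfl
  -- base points of the lines
  choose yy hyy hΛ using fun H : HH => (h6 H.1 H.2).2.2.2.1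
  have hHS : ∀ H : HH, HS S H.1 (c H.1 : G) := fun H => (h6 H.1 H.2).1
  have hceq : ∀ (p : P) (H : HH), c (tl (p : G) H.1) = p * c H.1 * p⁻¹ := fun p H =>
    (h6 H.1 H.2).2.2.1 p
  have hyys : ∀ H : HH, yy H ∈ Strip S s H.1 := by
    intro H
    obtain ⟨h1, z, h2, h3⟩ := hyy H
    exact ⟨h1, z, h2, h3.trans hE.hs1⟩
  have hls : ∀ (H : HH) (n : ℤ), (c H.1 : G) ^ n * yy H ∈ Strip S s H.1 := fun H n =>
    b9_strip_inv (hHS H) n (hyys H)
  have hlY : ∀ (H : HH) (n : ℤ), (c H.1 : G) ^ n * yy H ∈ Y := fun H n =>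
    b9_strip hP H.2 (hls H n)
  -- the shifts
  have hsh : ∀ (p : P) (H : HH), ∃ a : ℤ,
      (p : G) * yy H = (c (tl (p : G) H.1) : G) ^ a * yy (p • H) := by
    intro p H
    have h1 : (p : G) * yy H ∈ tl (p : G) (Λ H.1) := by
      show (p : G)⁻¹ * ((p : G) * yy H) ∈ Λ H.1
      rw [inv_mul_cancel_left, hΛ H]
      exact ⟨0, by simp⟩
    rw [← (h6 H.1 H.2).2.2.2.2 p] at h1
    have h2 := hΛ (p • H)
    have h3 : ((p • H : HH) : Set G) = tl (p : G) H.1 := rfl
    rw [h3] at h2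
    rw [h2] at h1
    exact h1
  choose sh hsh using hsh
  let L : LineSys P Y HH :=
    { l := fun H n => ⟨(c H.1 : G) ^ n * yy H, hlY H n⟩
      inj := by
        intro H a b hab
        have h1 : (c H.1 : G) ^ a * yy H = (c H.1 : G) ^ b * yy H := congrArg Subtype.val hab
        exact b9_zpow (hHS H).ord (mul_right_cancel h1)
      sh := sh
      eqv := by
        intro p H n
        apply Subtype.ext
        show (p : G) * ((c H.1 : G) ^ n * yy H) =
          (c (tl (p : G) H.1) : G) ^ (n + sh p H) * yy (p • H)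
        have h1 : (c (tl (p : G) H.1) : G) ^ n = p * (c H.1 : G) ^ n * (p : G)⁻¹ := by
          rw [hceq p H, Subgroup.coe_mul, Subgroup.coe_mul, Subgroup.coe_inv, conj_zpow]
        rw [zpow_add, mul_assoc, ← hsh, h1]
        group }
  have hLl : ∀ (H : HH) (n : ℤ), (L.l H n : G) = (c H.1 : G) ^ n * yy H := fun H n => rfl
  -- graph facts
  have hact : ∀ (g : P) {x y : Y}, Γ.Adj x y → Γ.Adj (g • x) (g • y) := by
    intro g x y h
    refine ⟨fun hh => h.1 (smul_left_cancel g hh), ?_⟩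
    show wdist S ((g : G) * x.1) ((g : G) * y.1) ≤ r
    rw [wdist_mul_left]
    exact h.2
  obtain ⟨H₀, hH₀, H₁, hH₁, hne01, htwo⟩ := hE.two
  have hconn : Γ.Connected := by
    have : Nonempty Y := ⟨L.l ⟨H₀, hH₀⟩ 0⟩
    refine SimpleGraph.Connected.mk fun a b => ?_
    have h1 := hE.conn a.1 a.2 b.1 b.2
    have key : ∀ z : G, Relation.ReflTransGen (fun a b => a ∈ Yr S s HH ∧ b ∈ Yr S s HH ∧
        wdist S a b ≤ r) a.1 z → ∀ hz : z ∈ Y, Γ.Reachable a ⟨z, hz⟩ := by
      intro z hz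
      induction hz with
      | refl => intro _; exact SimpleGraph.Reachable.refl _
      | @tail u v _ huv ih =>
        intro hv
        obtain ⟨hu1, hv1, hd⟩ := huv
        by_cases he : (⟨u, hu1⟩ : Y) = ⟨v, hv⟩
        · rw [← he]
          exact ih hu1
        · exact (ih hu1).trans (SimpleGraph.Adj.reachable ⟨he, hd⟩)
    exact key b.1 h1 b.2
  have hG : L.Good Γ := by
    refine ⟨hconn, hact, ?_, ?_, ?_⟩
    · intro v
      refine ((ball_finite hS hSg v.1 r).preimage (f := Subtype.val)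
        (fun a _ b _ hab => Subtype.ext hab)).subset ?_
      intro w hw
      exact hw.2
    · obtain ⟨F, hF, hFo⟩ := hP.orb
      have hF' : {H : HH | H.1 ∈ F}.Finite :=
        hF.preimage (f := Subtype.val) (fun a _ b _ hab => Subtype.ext hab)
      obtain ⟨D, hD⟩ := (hF'.image fun H : HH => Γ.dist (L.l H 0) (L.l H 1)).bddAbove
      refine ⟨D, fun H n => ?_⟩
      obtain ⟨p, hp, hpF⟩ := hFo H.1 H.2
      set H' : HH := (⟨p, hp⟩ : P) • H with hH'
      have h1 : Γ.dist (L.l H' 0) (L.l H' 1) ≤ D := hD ⟨H', hpF, rfl⟩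
      -- moving along the line
      have h2 : ∀ j m : ℤ, ((c H'.1) ^ j : P) • L.l H' m = L.l H' (m + j) := by
        intro j m
        apply Subtype.ext
        show (((c H'.1) ^ j : P) : G) * ((c H'.1 : G) ^ m * yy H') = (c H'.1 : G) ^ (m + j) * yy H'
        rw [Subgroup.coe_zpow, ← mul_assoc, ← zpow_add, add_comm]
      set g : P := (c H'.1) ^ (-(n + sh ⟨p, hp⟩ H)) * ⟨p, hp⟩ with hg
      have h3 : ∀ m, g • L.l H m = L.l H' (m - n) := by
        intro m
        rw [hg, mul_smul, L.eqv, h2]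
        congr 1
        show m + sh ⟨p, hp⟩ H + -(n + sh ⟨p, hp⟩ H) = m - n
        ring
      have h4 := Q4.dist_smul_le Γ hact hconn g⁻¹ (g • L.l H n) (g • L.l H (n + 1))
      rw [inv_smul_smul, inv_smul_smul, h3, h3, sub_self, add_sub_cancel_left] at h4
      exact h4.trans h1
    · intro v
      refine Set.Subsingleton.finite ?_
      rintro ⟨H, n⟩ h1 ⟨H', n'⟩ h2
      have h1' : L.l H n = v := h1
      have h2' : L.l H' n' = v := h2
      have h3 : H = H' := by
        by_contra hne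
        have hne' : H.1 ≠ H'.1 := fun h => hne (Subtype.ext h)
        have h4 : v.1 ∈ H.1 := by
          rw [← h1', hLl]
          exact (hls H n).1
        have h5 : v.1 ∈ H'.1 := by
          rw [← h2', hLl]
          exact (hls H' n').1
        exact Set.disjoint_left.1 (hP.disj H.1 H.2 H'.1 H'.2 hne') h4 h5
      subst h3
      have h4 := L.inj H (h1'.trans h2'.symm)
      rw [h4]
  -- translation between subsets of `Y` and sets of vertices
  have hfb : ∀ A : Set Y, (bdry Γ A).Finite → ∀ R, FinBd S Y R (Subtype.val '' A) := by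
    intro A hA
    refine b0a G S hS hSg P Y hinv hcof r hE.conn _ ?_
    refine (hA.image fun p : Y × Y => (p.1.1, p.2.1)).subset ?_
    rintro ⟨x, y⟩ ⟨hx, hy, hd, ⟨x', hx', hxx⟩, hyA⟩
    have hxx' : x'.1 = x := hxx
    subst hxx'
    refine ⟨(x', ⟨y, hy⟩), ⟨⟨fun h => ?_, hd⟩, hx', fun h => hyA ⟨⟨y, hy⟩, h, rfl⟩⟩, rfl⟩
    exact hyA ⟨x', hx', congrArg Subtype.val h⟩
  have hsep : ∀ A : Set Y, (bdry Γ A).Finite → ∀ H : HH,
      (L.Sep A H ↔ Sep S s H.1 (Subtype.val '' A)) := by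
    intro A hA H
    obtain ⟨-, -, h3, -⟩ := b0b G S hS hSg P HH hP s (Subtype.val '' A) (hfb A hA) H.1 H.2
      (c H.1 : G) (yy H) (hHS H) (hyys H)
    rw [h3]
    have h4 : ∀ n : ℤ, L.l H n ∈ A ↔ (c H.1 : G) ^ n * yy H ∈ Subtype.val '' A := by
      intro n
      constructor
      · intro h
        exact ⟨L.l H n, h, rfl⟩
      · rintro ⟨x, hx, hxx⟩
        have : x = L.l H n := Subtype.ext hxx
        rwa [← this]
    unfold LineSys.Sep SepAt
    simp only [h4]
  have hone' : ∀ A : Set Y, (bdry Γ A).Finite → {i | L.Sep A i}.ncard ≤ 1 →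
      A.Finite ∨ Aᶜ.Finite := by
    intro A hA hn
    have hfin := LineSys.sep_fin (LineSys.sw_fin hG hA)
    have h1 : ∃ H₁, ∀ H ∈ HH, Sep S s H (Subtype.val '' A) → H = H₁ := by
      by_cases hex : ∃ H ∈ HH, Sep S s H (Subtype.val '' A)
      · obtain ⟨H₁, hH₁, hs₁⟩ := hex
        refine ⟨H₁, fun H hH hs => ?_⟩
        have h2 := (Set.ncard_le_one hfin).1 hn ⟨H, hH⟩ ((hsep A hA ⟨H, hH⟩).2 hs) ⟨H₁, hH₁⟩
          ((hsep A hA ⟨H₁, hH₁⟩).2 hs₁)
        exact congrArg Subtype.val h2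
      · exact ⟨∅, fun H hH hs => absurd ⟨H, hH, hs⟩ hex⟩
    have hsub : Subtype.val '' A ⊆ Y := by
      rintro _ ⟨x, _, rfl⟩
      exact x.2
    rcases b8 G S hS hSg hone k hst P HH hP s r hE.hs1 hE.conn (Subtype.val '' A) hsub
      (hfb A hA r) h1 with h2 | h2
    · left
      refine (h2.preimage (f := Subtype.val) (fun a _ b _ hab => Subtype.ext hab)).subset ?_
      intro x hx
      exact ⟨x, hx, rfl⟩
    · right
      refine (h2.preimage (f := Subtype.val) (fun a _ b _ hab => Subtype.ext hab)).subset ?_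
      intro x hx
      refine ⟨x.2, ?_⟩
      rintro ⟨x', hx', hxx⟩
      have : x' = x := Subtype.ext hxx
      rw [this] at hx'
      exact hx hx'
  -- the given cut
  have hE0 : (bdry Γ {v : Y | v.1 ∈ E}).Finite := by
    refine (hE.fin.preimage (f := fun p : Y × Y => (p.1.1, p.2.1)) ?_).subset ?_
    · rintro ⟨a, b⟩ _ ⟨a', b'⟩ _ h
      obtain ⟨h1, h2⟩ := Prod.mk.inj h
      exact Prod.ext (Subtype.ext h1) (Subtype.ext h2)
    · rintro ⟨a, b⟩ ⟨h1, h2, h3⟩
      exact ⟨a.2, b.2, h1.2, h2, h3⟩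
  have hEim : Subtype.val '' {v : Y | v.1 ∈ E} = E := by
    ext x
    constructor
    · rintro ⟨v, hv, rfl⟩
      exact hv
    · intro hx
      exact ⟨⟨x, hE.sub hx⟩, hx, rfl⟩
  have hE2 : {i | L.Sep {v : Y | v.1 ∈ E} i}.ncard = 2 := by
    have h1 : {i | L.Sep {v : Y | v.1 ∈ E} i} = {⟨H₀, hH₀⟩, ⟨H₁, hH₁⟩} := by
      ext H
      rw [Set.mem_setOf_eq, hsep _ hE0, hEim, htwo H.1 H.2, Set.mem_insert_iff,
        Set.mem_singleton_iff]
      constructor
      · rintro (h | h)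
        · exact Or.inl (Subtype.ext h)
        · exact Or.inr (Subtype.ext h)
      · rintro (h | h)
        · exact Or.inl (congrArg Subtype.val h)
        · exact Or.inr (congrArg Subtype.val h)
    rw [h1]
    exact Set.ncard_pair fun h => hne01 (congrArg Subtype.val h)
  obtain ⟨A, hA, hA2, hnest, hfin⟩ := exists_two L hG hone' _ hE0 hE2
  have htl : ∀ (p : P), tl (p : G) (Subtype.val '' A) = Subtype.val '' (tr p A) := by
    intro p
    ext x
    constructor
    · rintro ⟨v, hv, hvx⟩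
      have h1 : (p • v : Y).1 = x := by
        show (p : G) * v.1 = x
        rw [hvx, mul_inv_cancel_left]
      refine ⟨p • v, ?_, h1⟩
      exact (Q4.mem_tr p A v).2 hv
    · rintro ⟨v, hv, rfl⟩
      exact ⟨p⁻¹ • v, hv, rfl⟩
  refine ⟨r, Subtype.val '' A, ⟨hE.hs1, hE.conn, ?_, hfb A hA r, ?_⟩, ?_, ?_⟩
  · rintro _ ⟨x, _, rfl⟩
    exact x.2
  · obtain ⟨H, H', hne, hHH⟩ := Set.ncard_eq_two.1 hA2
    refine ⟨H.1, H.2, H'.1, H'.2, fun h => hne (Subtype.ext h), fun K hK => ?_⟩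
    rw [← hsep A hA ⟨K, hK⟩]
    have h1 : L.Sep A ⟨K, hK⟩ ↔ (⟨K, hK⟩ : HH) ∈ ({H, H'} : Set HH) := by
      rw [← hHH]
      exact Iff.rfl
    rw [h1, Set.mem_insert_iff, Set.mem_singleton_iff]
    constructor
    · rintro (h | h)
      · exact Or.inl (congrArg Subtype.val h)
      · exact Or.inr (congrArg Subtype.val h)
    · rintro (h | h)
      · exact Or.inl (Subtype.ext h)
      · exact Or.inr (Subtype.ext h)
  · intro p hp
    have h0 := htl ⟨p, hp⟩
    have h0' : tl p (Subtype.val '' A) = Subtype.val '' (tr (⟨p, hp⟩ : P) A) := h0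
    rw [h0']
    rcases hnest ⟨p, hp⟩ with h | h | h | h
    · exact Or.inl (Set.image_mono h)
    · refine Or.inr (Or.inl ?_)
      rw [Set.disjoint_left]
      rintro _ ⟨x, hx, rfl⟩ ⟨x', hx', hxx⟩
      have : x' = x := Subtype.ext hxx
      rw [this] at hx'
      exact h hx hx'
    · refine Or.inr (Or.inr (Or.inl ?_))
      intro x hx
      by_cases hxA : (⟨x, hx⟩ : Y) ∈ A
      · exact Or.inl ⟨_, hxA, rfl⟩
      · exact Or.inr ⟨_, h hxA, rfl⟩
    · refine Or.inr (Or.inr (Or.inr ?_))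
      exact Set.image_mono (Set.compl_subset_compl.1 h)
  · intro x hx y hy
    refine ((hfin ⟨x, hx⟩ ⟨y, hy⟩).image fun B => Subtype.val '' B).subset ?_
    rintro B ⟨⟨p, hp, rfl⟩, h1, h2⟩
    have h0 : tl p (Subtype.val '' A) = Subtype.val '' (tr (⟨p, hp⟩ : P) A) := htl ⟨p, hp⟩
    rw [h0] at h1 h2 ⊢
    refine ⟨tr (⟨p, hp⟩ : P) A, ⟨⟨⟨p, hp⟩, rfl⟩, ?_, fun h => h2 ⟨_, h, rfl⟩⟩, rfl⟩
    obtain ⟨x', hx', hxx⟩ := h1
    have : x' = ⟨x, hx⟩ := Subtype.ext hxx
    rwa [← this]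

end

end Pool.Agent.QE
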