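import Pool.Agent.QE.Stm
import Pool.Agent.QD.C5

/-!
# Project QE (MP_bbdce3), C5: the boundaries of the new half-spaces
-/

set_option autoImplicit false

namespace Pool.Agent.QE

open Pool.Agent.QIS Pool.Agent.QD MulAction

theorem sc5 (c1 : SC1) (b1 : SB1) : SC5 := by
  classical
  intro G _ S hS hSg P HH hP t π hπ u z huz q hq hz hF
  have hinv : ∀ x, (q : G) * x ∈ Zc t π u (Sum.inl z) ↔ x ∈ Zc t π u (Sum.inl z) := by
    intro x
    have h1 := c0_zc_tr hP t π hπ q u (Sum.inl z)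
    rw [hq, c0_ptr_inl, ← c0_zc_eq t π hz] at h1
    have h2 := c0_mem_tl (q : G) (Zc t π u (Sum.inl z)) x
    rw [← h1] at h2
    exact h2
  refine ⟨hinv, fun n => ?_⟩
  obtain ⟨FV, hFV, hFVo⟩ := hF
  obtain ⟨-, ⟨F₀, hF₀, hF₀o⟩, -⟩ := b1 G S hS hSg P HH hP n
  -- the finite sets of vertices on the paths
  have hW : ∀ x y : G, ∃ W : Set t.E.V, W.Finite ∧
      ∀ u, u ∉ W → cls t π y ≠ Sum.inl u ∧ Rch t u (cls t π x) (cls t π y) :=
    fun x y => c5x_path c1 t (c0_isVx_cls hP t π x) (c0_isVx_cls hP t π y)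
  choose W hWf hWp using hW
  let W₀ : Set t.E.V := ⋃ x₀ ∈ F₀, ⋃ y₀ ∈ {y | wdist S x₀ y ≤ n}, W x₀ y₀
  have hW₀ : W₀.Finite := hF₀.biUnion fun x₀ _ =>
    (ball_finite hS hSg x₀ n).biUnion fun y₀ _ => hWf x₀ y₀
  -- a boundary point is translated to the finite set
  have key : ∀ x y, wdist S x y ≤ n → x ∈ Zc t π u (Sum.inl z) → y ∉ Zc t π u (Sum.inl z) →
      ∃ p : P, (p : G) * x ∈ F₀ ∧ p • u ∈ W₀ := by
    intro x y hxy hx hy
    have hxY : x ∈ Yr S n HH := by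
      intro H hH hd
      have hxH : x ∈ H := by
        by_contra h
        have := hd x h
        rw [wdist_self] at this
        omega
      have hyH : y ∈ H := by
        by_contra h
        have := hd y h
        omega
      have h1 := c0_cls_inr hP t π hH hxH
      have h2 := c0_cls_inr hP t π hH hyH
      refine hy ⟨?_, ?_⟩
      · rw [h2, ← h1]; exact hx.1
      · rw [h2, ← h1]; exact hx.2
    obtain ⟨p, hp, hpx⟩ := hF₀o x hxY
    refine ⟨⟨p, hp⟩, hpx, ?_⟩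
    by_contra hcon
    have h1 : p * y ∈ {y | wdist S (p * x) y ≤ n} := by
      simp only [Set.mem_ofPred_eq]
      rw [wdist_mul_left]
      exact hxy
    have h2 : (⟨p, hp⟩ : P) • u ∉ W (p * x) (p * y) := by
      intro h3
      refine hcon ?_
      simp only [W₀, Set.mem_iUnion]
      exact ⟨p * x, hpx, p * y, h1, h3⟩
    obtain ⟨h4, h5⟩ := hWp _ _ _ h2
    have h6 := c0_cls_tr hP t π hπ (⟨p, hp⟩ : P) x
    have h7 := c0_cls_tr hP t π hπ (⟨p, hp⟩ : P) y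
    simp only at h6 h7
    rw [h6, h7] at h5
    rw [h7] at h4
    have h8 := c0_rch_tr hP t (⟨p, hp⟩ : P)⁻¹ h5
    rw [inv_smul_smul, c0_ptr_inv, c0_ptr_inv] at h8
    refine hy ⟨fun h => h4 (by rw [h, c0_ptr_inl]), c0_rch_trans t hx.2 h8⟩
  -- the finite set of elements that move z to the finite set
  have hK : {g : P | g • u = u ∧ g • z ∈ FV}.Finite := by
    refine Set.Finite.of_finite_image (f := fun g : P => g • z) (hFV.subset ?_) ?_
    · rintro _ ⟨g, hg, rfl⟩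
      exact hg.2
    · intro g hg g' hg' h
      have h1 : g'⁻¹ * g = 1 := by
        refine c0_free t.E t.triv huz ?_ ?_
        · rw [mul_smul, hg.1, inv_smul_eq_iff, hg'.1]
        · rw [mul_smul, inv_smul_eq_iff]
          exact h
      rw [inv_mul_eq_one] at h1
      exact h1.symm
  -- representatives
  have hrep : ∀ v : G × t.E.V, ∃ x₁ : G, (∃ x ∈ Zc t π u (Sum.inl z), ∃ p : P,
      (p : G) * x = v.1 ∧ p • u = v.2) → x₁ ∈ Zc t π u (Sum.inl z) ∧ ∃ p : P,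
      (p : G) * x₁ = v.1 ∧ p • u = v.2 := by
    intro v
    by_cases h : ∃ x ∈ Zc t π u (Sum.inl z), ∃ p : P, (p : G) * x = v.1 ∧ p • u = v.2
    · obtain ⟨x, hx, hp⟩ := h
      exact ⟨x, fun _ => ⟨hx, hp⟩⟩
    · exact ⟨1, fun h' => absurd h' h⟩
  choose rep hrep using hrep
  refine ⟨⋃ v ∈ F₀ ×ˢ W₀, (fun g : P => (g : G) * rep v) '' {g : P | g • u = u ∧ g • z ∈ FV},
    (hF₀.prod hW₀).biUnion fun v _ => hK.image _, fun x y hxy hx hy => ?_⟩
  obtain ⟨p, hpx, hpu⟩ := key x y hxy hx hy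
  obtain ⟨hx₁, p₁, hp₁x, hp₁u⟩ := hrep ((p : G) * x, p • u) ⟨x, hx, p, rfl, rfl⟩
  set x₁ := rep ((p : G) * x, p • u) with hx₁d
  -- x = h * x₁
  have hh : (p⁻¹ * p₁) • u = u := by
    rw [mul_smul, hp₁u, inv_smul_smul]
  have hxx : x = ((p⁻¹ * p₁ : P) : G) * x₁ := by
    rw [Subgroup.coe_mul, mul_assoc, hp₁x, Subgroup.coe_inv, inv_mul_cancel_left]
  have h1 : Rch t u (Sum.inl ((p⁻¹ * p₁) • z)) (cls t π x) := by
    have h2 := c0_rch_tr hP t (p⁻¹ * p₁) hx₁.2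
    rw [hh, c0_ptr_inl, ← c0_cls_tr hP t π hπ, ← hxx] at h2
    exact h2
  have h2 : Rch t u (Sum.inl z) (Sum.inl ((p⁻¹ * p₁) • z)) :=
    c0_rch_trans t hx.2 (c0_rch_symm t h1)
  have h3 : t.E.T.Adj u ((p⁻¹ * p₁) • z) := by
    have := t.E.map_adj (p⁻¹ * p₁) huz
    rwa [hh] at this
  obtain ⟨i, hi⟩ := hFVo _ h3 h2
  refine ⟨i, ?_⟩
  simp only [Set.mem_iUnion]
  refine ⟨((p : G) * x, p • u), ⟨hpx, hpu⟩, q ^ i * (p⁻¹ * p₁), ⟨?_, ?_⟩, ?_⟩
  · have hqi : q ^ i ∈ stabilizer P u := Subgroup.zpow_mem _ (mem_stabilizer_iff.2 hq) i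
    rw [mul_smul, hh]
    exact mem_stabilizer_iff.1 hqi
  · rw [mul_smul]
    exact hi
  · simp only
    rw [← hx₁d, Subgroup.coe_mul, mul_assoc, ← hxx, Subgroup.coe_zpow]

end Pool.Agent.QE
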