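import Pool.Agent.QE.Stm
import Pool.Agent.QD.C6

/-!
# Project QE (MP_bbdce3), C6: the new half-spaces are deep
-/

set_option autoImplicit false

namespace Pool.Agent.QE

open Pool.Agent.QIS Pool.Agent.QD MulAction

theorem sc6 (c1 : SC1) : SC6 := by
  intro G _ S hS hSg P HH hP t π hπ u z huz hinf F hF
  have hHF : (⋃ f ∈ F, {H : Set G | H ∈ HH ∧ f ∈ H}).Finite := by
    refine hF.biUnion fun f _ => ?_
    refine Set.Subsingleton.finite ?_
    rintro H ⟨hH, hf⟩ H' ⟨hH', hf'⟩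
    by_contra hne
    exact Set.disjoint_left.1 (hP.disj H hH H' hH' hne) hf hf'
  have hw : ∀ H : Set G, ∃ w : t.E.V, H ∈ HH → Tau t.E.T (t.c H) w := by
    intro H
    by_cases hH : H ∈ HH
    · obtain ⟨w, hw⟩ := (c1 P t.E t.triv (t.c H) (c6_ord t hH)).2.2.1
      exact ⟨w, fun _ => hw⟩
    · exact ⟨u, fun h => absurd h hH⟩
  choose wH hwH using hw
  obtain ⟨B, hB⟩ := (hHF.image (fun H => t.E.T.dist u (wH H))).bddAbove
  obtain ⟨H, hH, ⟨w, hw, hws⟩, hfar⟩ := c6_claim c1 t huz hinf B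
  obtain ⟨x, hx, -⟩ := (t.hc H hH).deep ∅ Set.finite_empty
  have hcls := c0_cls_inr hP t π hH hx
  have hwu : w ≠ u := by
    rintro rfl
    exact (side_swap t.E.tree huz w).1 hws (side_self _ _)
  refine ⟨x, ⟨?_, ?_⟩, ?_⟩
  · rw [hcls]
    exact fun h => by cases h
  · rw [hcls]
    refine c0_rch_trans t (c0_rch_side t huz hws) (c0_rch_one t ?_ ?_ ?_)
    · exact ⟨hH, hw⟩
    · exact fun h => hwu (Sum.inl.inj h)
    · exact fun h => by cases h
  · intro p hp hpx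
    obtain ⟨q, hq, rfl⟩ := Subgroup.mem_map.1 hp
    have hqu : q • u = u := hq
    have hq1 : tl (q : G) H ∈ HH := hP.inv q q.2 H hH
    have h1 : t.E.T.dist u (wH (tl (q : G) H)) ≤ B := by
      refine hB ⟨tl (q : G) H, ?_, rfl⟩
      simp only [Set.mem_iUnion]
      exact ⟨(q : G) * x, hpx, hq1, (c0_mem_tl _ _ _).2 hx⟩
    have h2 := c0_tau_tl t hq1 q⁻¹ (hwH _ hq1)
    have h3 : tl ((q⁻¹ : P) : G) (tl (q : G) H) = H := by
      rw [Subgroup.coe_inv]
      exact c0_tl_inv _ _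
    rw [h3] at h2
    have h4 := hfar _ h2
    have h5 := c6_dist t.E q⁻¹ u (wH (tl (q : G) H))
    have h6 : q⁻¹ • u = u := by rw [inv_smul_eq_iff, hqu]
    rw [h6] at h5
    omega

end Pool.Agent.QE
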