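import Pool.Agent.QE.Stm
import Pool.Agent.QD.C7

/-!
# Project QE (MP_bbdce3), C7: the rank of a vertex group is smaller
-/

set_option autoImplicit false

namespace Pool.Agent.QE

open Pool.Agent.QIS Pool.Agent.QD MulAction

/-- a splitting transported along an isomorphism -/
def trSpl {A B : Type} [Group A] [Group B] (e : A ≃* B) (E : Splitting B) : Splitting A where
  V := E.V
  act := MulAction.compHom E.V e.toMonoidHom
  T := E.T
  a := E.a
  b := E.b
  tree := E.tree
  map_adj := fun g {_ _} h => E.map_adj (e g) h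
  no_inv := fun g {_ _} h => E.no_inv (e g) h
  no_fix := by
    intro x
    obtain ⟨g, hg⟩ := E.no_fix x
    refine ⟨e.symm g, ?_⟩
    show e (e.symm g) • x ≠ x
    rw [MulEquiv.apply_symm_apply]
    exact hg
  adj := E.adj
  edge_trans := by
    intro x y h
    obtain ⟨g, hg⟩ := E.edge_trans h
    refine ⟨e.symm g, ?_⟩
    show (e (e.symm g) • E.a = x ∧ e (e.symm g) • E.b = y) ∨
      (e (e.symm g) • E.a = y ∧ e (e.symm g) • E.b = x)
    rw [MulEquiv.apply_symm_apply]
    exact hg

theorem trSpl_stab {A B : Type} [Group A] [Group B] (e : A ≃* B) (E : Splitting B) (v : E.V)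
    (g : A) : g ∈ (stabilizer A (α := (trSpl e E).V) v) ↔ e g ∈ stabilizer B v := Iff.rfl

theorem trSpl_triv {A B : Type} [Group A] [Group B] (e : A ≃* B) (E : Splitting B)
    (h : E.edgeGroup = ⊥) : (trSpl e E).edgeGroup = ⊥ := by
  rw [Subgroup.eq_bot_iff_forall]
  intro g hg
  have h1 : e g ∈ E.edgeGroup := hg
  rw [h, Subgroup.mem_bot] at h1
  exact (MulEquiv.map_eq_one_iff e).1 h1

theorem sc7 : SC7 := by
  intro G A _ _ j hj k D _ _ ι hι P hP hfg E hE u
  -- the isomorphism
  have hsurj : Function.Surjective (fun x : P.comap j => (⟨j x.1, x.2⟩ : P)) := by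
    rintro ⟨p, hp⟩
    obtain ⟨x, rfl⟩ := hP hp
    exact ⟨⟨x, hp⟩, rfl⟩
  have hinj : Function.Injective (fun x : P.comap j => (⟨j x.1, x.2⟩ : P)) := by
    rintro ⟨x, hx⟩ ⟨y, hy⟩ h
    exact Subtype.ext (hj (congrArg Subtype.val h))
  let f : P.comap j →* P :=
    { toFun := fun x => ⟨j x.1, x.2⟩
      map_one' := Subtype.ext (map_one j)
      map_mul' := fun x y => Subtype.ext (map_mul j _ _) }
  let e : P.comap j ≃* P := MulEquiv.ofBijective f ⟨hinj, hsurj⟩
  have hfg' : (P.comap j).FG := by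
    rw [← Group.fg_iff_subgroup_fg] at hfg ⊢
    exact Group.fg_of_surjective (f := e.symm.toMonoidHom) e.symm.surjective
  have key := QD.sc7 A k D ι hι (P.comap j) hfg' (trSpl e E) (trSpl_triv e E hE) u
  have heq : (stabilizer (P.comap j) (α := (trSpl e E).V) u).map (P.comap j).subtype =
      ((stabilizer P u).map P.subtype).comap j := by
    ext x
    constructor
    · rintro ⟨g, hg, rfl⟩
      exact ⟨e g, (trSpl_stab e E u g).1 hg, rfl⟩
    · rintro ⟨p, hp, hpx⟩
      have hx : j x ∈ P := by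
        have : (p : G) = j x := hpx
        rw [← this]
        exact p.2
      refine ⟨⟨x, hx⟩, ?_, rfl⟩
      have h1 : e ⟨x, hx⟩ = p := Subtype.ext hpx.symm
      exact (trSpl_stab e E u _).2 (by rw [h1]; exact hp)
  rw [heq] at key
  exact key

end Pool.Agent.QE
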