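import Pool.Agent.QE.Asm

/-!
# The final theorem of the project QE (MP_bbdce3_al)
-/

set_option autoImplicit false

namespace Pool.Agent.QE

open Pool.Agent.QIS Pool.Agent.QD MulAction

/-- the same splitting with another base edge -/
def reb {G : Type} [Group G] (E : Splitting G) (x y : E.V) (h : E.T.Adj x y) : Splitting G where
  V := E.V
  act := E.act
  T := E.T
  a := x
  b := y
  tree := E.tree
  map_adj := E.map_adj
  no_inv := E.no_inv
  no_fix := E.no_fix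
  adj := h
  edge_trans := by
    intro v w hvw
    obtain ⟨g, hg⟩ := E.edge_trans h
    obtain ⟨g', hg'⟩ := E.edge_trans hvw
    refine ⟨g' * g⁻¹, ?_⟩
    rcases hg with ⟨h1, h2⟩ | ⟨h1, h2⟩ <;> rcases hg' with ⟨h3, h4⟩ | ⟨h3, h4⟩
    · left
      rw [← h1, ← h2, mul_smul, mul_smul, inv_smul_smul, inv_smul_smul]
      exact ⟨h3, h4⟩
    · right
      rw [← h1, ← h2, mul_smul, mul_smul, inv_smul_smul, inv_smul_smul]
      exact ⟨h3, h4⟩
    · right
      rw [← h1, ← h2, mul_smul, mul_smul, inv_smul_smul, inv_smul_smul]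
      exact ⟨h4, h3⟩
    · left
      rw [← h1, ← h2, mul_smul, mul_smul, inv_smul_smul, inv_smul_smul]
      exact ⟨h4, h3⟩

theorem reb_te {G : Type} [Group G] (E : Splitting G) (hE : TwoEnded E.edgeGroup) (x y : E.V)
    (h : E.T.Adj x y) : TwoEnded (reb E x y h).edgeGroup := by
  have key : ∀ (g : G) (u v : E.V), g • E.a = u → g • E.b = v →
      TwoEnded (stabilizer G u ⊓ stabilizer G v : Subgroup G) := by
    rintro g _ _ rfl rfl
    have h1 : (stabilizer G (g • E.a) ⊓ stabilizer G (g • E.b) : Subgroup G)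
        = E.edgeGroup.map (MulAut.conj g).toMonoidHom := by
      ext k
      rw [Subgroup.mem_inf, mem_stabilizer_iff, mem_stabilizer_iff, Subgroup.mem_map]
      constructor
      · rintro ⟨h2, h3⟩
        refine ⟨g⁻¹ * k * g, Subgroup.mem_inf.2 ⟨?_, ?_⟩, ?_⟩
        · rw [mem_stabilizer_iff, mul_smul, mul_smul, h2, inv_smul_smul]
        · rw [mem_stabilizer_iff, mul_smul, mul_smul, h3, inv_smul_smul]
        · show g * (g⁻¹ * k * g) * g⁻¹ = k
          group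
      · rintro ⟨c, hc, rfl⟩
        obtain ⟨h2, h3⟩ := Subgroup.mem_inf.1 hc
        rw [mem_stabilizer_iff] at h2 h3
        constructor
        · show (g * c * g⁻¹) • g • E.a = g • E.a
          rw [mul_smul, mul_smul, inv_smul_smul, h2]
        · show (g * c * g⁻¹) • g • E.b = g • E.b
          rw [mul_smul, mul_smul, inv_smul_smul, h3]
    rw [h1]
    exact TwoEnded.congr (E.edgeGroup.equivMapOfInjective _ (MulAut.conj g).injective) hE
  show TwoEnded (stabilizer G x ⊓ stabilizer G y : Subgroup G)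
  obtain ⟨g, hg⟩ := E.edge_trans h
  rcases hg with ⟨h1, h2⟩ | ⟨h1, h2⟩
  · exact key g x y h1 h2
  · rw [inf_comm]
    exact key g y x h1 h2

theorem fg_of_fp {C : Type} [Group C] (h : Group.IsFinitelyPresented C) : Group.FG C := by
  obtain ⟨n, φ, hφ, -⟩ := h
  exact Group.fg_of_surjective hφ

/-- a vertex as the base vertex of a splitting -/
theorem exists_adj {G : Type} [Group G] (E : Splitting G) (v : E.V) : ∃ w, E.T.Adj v w := by
  have hne : ∃ w : E.V, w ≠ v := by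
    by_cases h : E.a = v
    · exact ⟨E.b, fun h' => E.adj.ne (h.trans h'.symm)⟩
    · exact ⟨E.a, h⟩
  obtain ⟨w, hw⟩ := hne
  obtain ⟨p⟩ := E.tree.connected.preconnected v w
  cases p with
  | nil => exact absurd rfl hw
  | cons h _ => exact ⟨_, h⟩

/-- the final theorem -/
theorem final (m1 : SM1) (tfp : TFP) (ta1 : TA1) (tv : TV) (ta2 : TA2) (b12 : SB12)
    (c8 : SC8) (c9 : SC9) (c10 : SC10) (c11 : SC11) (c13 : SC13)
    (c14 : SC14) (c15 : SC15) (c16 : SC16)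
    (G H : Type) [Group G] [Group H] (S : Set G) (S' : Set H)
    (hS : S.Finite) (hS' : S'.Finite)
    (hSg : Subgroup.closure S = ⊤) (hS'g : Subgroup.closure S' = ⊤)
    (hone : OneEnded S) (hnfp : ¬ Group.IsFinitelyPresented G)
    (E : Splitting G) (hC : TwoEnded E.edgeGroup)
    (G₀ : Subgroup G) (hG₀ : G₀.FiniteIndex) (k : Type) [Field k]
    (hv : ∀ v : E.V, Group.IsFinitelyPresented (stabilizer G₀ v) ∨ DType k (stabilizer G₀ v))
    (hqi : ∃ (K : ℕ) (φ : G → H), IsQI S S' K φ) : SplitsOverTwoEnded H := by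
  -- a vertex group that is not finitely presented
  have hfg : E.edgeGroup.FG :=
    (Group.fg_iff_subgroup_fg _).mp (fg_of_fp (c10.1 E.edgeGroup hC))
  obtain ⟨a, ha, hafp⟩ : ∃ a : E.V, (a = E.a ∨ a = E.b) ∧
      ¬ Group.IsFinitelyPresented (stabilizer G a) := by
    by_contra hcon
    push Not at hcon
    exact hnfp (c8 G E hfg (hcon _ (Or.inl rfl)) (hcon _ (Or.inr rfl)))
  have ha0 : ¬ Group.IsFinitelyPresented (stabilizer G₀ a) := by
    intro h
    refine hafp (c9 (stabilizer G a) (G₀.subgroupOf (stabilizer G a)) inferInstance ?_)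
    have e : (stabilizer G₀ a) ≃* (G₀.subgroupOf (stabilizer G a)) :=
      { toFun := fun x => ⟨⟨(x.1 : G), x.2⟩, x.1.2⟩
        invFun := fun x => ⟨⟨(x.1 : G), x.2⟩, x.1.2⟩
        left_inv := fun _ => rfl
        right_inv := fun _ => rfl
        map_mul' := fun _ _ => rfl }
    exact fp_of_equiv e h
  obtain ⟨S₀, hS₀, hS₀g, hone₀, K₀, hK₀⟩ := c15 G S hS hSg hone G₀ hG₀
  -- the vertex groups are finitely generated, the edge groups are two-ended
  have hvert : ∀ v : E.V, (stabilizer G₀ v).FG ∧ ∀ z, E.T.Adj v z →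
      TwoEnded (stabilizer G₀ v ⊓ stabilizer G₀ z : Subgroup G₀) := by
    intro v
    obtain ⟨w, hw⟩ := exists_adj E v
    obtain ⟨h1, h2, h3, h4⟩ := c16 G (reb E v w hw) (reb_te E hC v w hw) G₀ hG₀ v (Or.inl rfl)
    obtain ⟨HH, hpiece⟩ := c11 G₀ S₀ hS₀ hS₀g E.V E.T E.tree
      (fun g {x y} hxy => E.map_adj (g : G) hxy) v h1 h2 h3 h4
    exact ⟨b12 G₀ S₀ hS₀ hS₀g _ HH hpiece, h3⟩
  -- stability
  have hst : PSt S₀ k Set.univ := by
    refine tv G₀ S₀ hS₀ hS₀g k E.V E.T E.tree (fun g {x y} hxy => E.map_adj (g : G) hxy)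
      ⟨E.a⟩ (fun v => (hvert v).1) ?_ ?_
    · intro v
      rcases hv v with h | h
      · exact tfp G₀ S₀ hS₀ hS₀g k _ h
      · exact ta1 G₀ S₀ hS₀ hS₀g k _ h
    · intro v w hvw
      exact (Group.fg_iff_subgroup_fg _).mp (fg_of_fp (c10.1 _ ((hvert v).2 w hvw)))
  have hpfs := ta2 G₀ S₀ hS₀ hS₀g hone₀ k hst
  obtain ⟨h1, h2, h3, h4⟩ := c16 G E hC G₀ hG₀ a ha
  obtain ⟨HH, hpiece⟩ := c11 G₀ S₀ hS₀ hS₀g E.V E.T E.tree
    (fun g {x y} hxy => E.map_adj (g : G) hxy) a h1 h2 h3 h4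
  obtain ⟨P', HH', hp', hun⟩ := m1 G₀ S₀ hS₀ hS₀g hone₀ k hpfs (stabilizer G₀ a)
    ((hv a).resolve_left ha0) _ HH le_rfl hpiece ha0
  obtain ⟨H₁, hH₁⟩ := hp'.ne
  obtain ⟨c, hc, hHS⟩ := hp'.hs H₁ hH₁
  obtain ⟨E', π, hπ, hst', hside⟩ := c13 G₀ S₀ hS₀ hS₀g P' HH' hp' H₁ hH₁
  obtain ⟨hte, hnc⟩ := c14 G₀ S₀ hS₀ hS₀g H₁ c hHS (hun H₁ hH₁) E' π hπ hst' hside
  obtain ⟨K, φ, hφ⟩ := hqi
  refine main_theorem3 G₀ H S₀ S' hS₀ hS' hS₀g hS'g hone₀ E' hte hnc ?_
  exact ⟨_, _, hK₀.comp hφ hS'g⟩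

end Pool.Agent.QE
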