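import Pool.Agent.QE.Stm

/-!
# Project QE (MP_bbdce3_al), row TFP: finitely presented subgroups are stable
-/

set_option autoImplicit false

namespace Pool.Agent.QE

open Pool.Agent.QIS Pool.Agent.QD MulAction

section

variable {G : Type} [Group G] {k : Type} [Field k] (P : Subgroup G) (y₀ : G)

/-- the cochain on the orbit of the base point -/
private def tfA (φ : G → G → k) (p q : P) : k := φ ((p : G) * y₀) ((q : G) * y₀)

/-- the permutation of `P × k` attached to an element of `P` -/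
private def tfT (φ : G → G → k) (b : P) : Equiv.Perm (P × k) where
  toFun q := (q.1 * b⁻¹, q.2 + tfA P y₀ φ q.1 (q.1 * b⁻¹))
  invFun q := (q.1 * b, q.2 - tfA P y₀ φ (q.1 * b) q.1)
  left_inv q := by
    ext1
    · show q.1 * b⁻¹ * b = q.1
      rw [inv_mul_cancel_right]
    · show q.2 + tfA P y₀ φ q.1 (q.1 * b⁻¹) - tfA P y₀ φ (q.1 * b⁻¹ * b) (q.1 * b⁻¹) = q.2
      rw [inv_mul_cancel_right, add_sub_cancel_right]
  right_inv q := by
    ext1
    · show q.1 * b * b⁻¹ = q.1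
      rw [mul_inv_cancel_right]
    · show q.2 - tfA P y₀ φ (q.1 * b) q.1 + tfA P y₀ φ (q.1 * b) (q.1 * b * b⁻¹) = q.2
      rw [mul_inv_cancel_right, sub_add_cancel]

private theorem tfT_apply (φ : G → G → k) (b p : P) (t : k) :
    tfT P y₀ φ b (p, t) = (p * b⁻¹, t + tfA P y₀ φ p (p * b⁻¹)) := rfl

private theorem tfT_inv (φ : G → G → k) (b p : P) (t : k) :
    (tfT P y₀ φ b)⁻¹ (p, t) = (p * b, t - tfA P y₀ φ (p * b) p) := rfl

variable {m : ℕ} (φ₀ : FreeGroup (Fin m) →* P)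

/-- the action of the free group -/
private def tfθ (φ : G → G → k) : FreeGroup (Fin m) →* Equiv.Perm (P × k) :=
  FreeGroup.lift fun i => tfT P y₀ φ (φ₀ (FreeGroup.of i))

/-- the action of `w` is as expected for all cocycles at scale `n` -/
private def TfGood (S Y : Set G) (k : Type) [Field k] (n : ℕ) (w : FreeGroup (Fin m)) : Prop :=
  ∀ φ : G → G → k, Coc S Y n φ → ∀ (p : P) (t : k),
    tfθ P y₀ φ₀ φ w (p, t) = (p * (φ₀ w)⁻¹, t + tfA P y₀ φ p (p * (φ₀ w)⁻¹))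

private theorem tf_mono {S Y : Set G} {n n' : ℕ} (h : n ≤ n') {φ : G → G → k}
    (hφ : Coc S Y n' φ) : Coc S Y n φ :=
  fun x hx y hy z hz h1 h2 h3 => hφ x hx y hy z hz (h1.trans h) (h2.trans h) (h3.trans h)

private theorem tf_good_mono {S Y : Set G} {n n' : ℕ} (h : n ≤ n') {w : FreeGroup (Fin m)}
    (hw : TfGood P y₀ φ₀ S Y k n w) : TfGood P y₀ φ₀ S Y k n' w :=
  fun φ hφ => hw φ (tf_mono h hφ)

private theorem tf_self {S Y : Set G} {n : ℕ} {φ : G → G → k} (hφ : Coc S Y n φ) {x : G}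
    (hx : x ∈ Y) : φ x x = 0 := by
  have h0 : wdist S x x ≤ n := by rw [wdist_self]; exact Nat.zero_le _
  have h := hφ x hx x hx x hx h0 h0 h0
  exact add_eq_left.mp h

private theorem tf_d (S : Set G) (p b : P) :
    wdist S ((p : G) * y₀) (((p * b : P) : G) * y₀) = wdist S y₀ ((b : G) * y₀) := by
  rw [Subgroup.coe_mul, mul_assoc, wdist_mul_left]

private theorem tf_word {S Y : Set G} (hSg : Subgroup.closure S = ⊤) (hinv : Inv P Y)
    (hy₀ : y₀ ∈ Y) (w : FreeGroup (Fin m)) : ∃ n, TfGood P y₀ φ₀ S Y k n w := by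
  have hY : ∀ p : P, (p : G) * y₀ ∈ Y := fun p => hinv p p.2 y₀ hy₀
  induction w using FreeGroup.induction_on with
  | C1 =>
    refine ⟨0, fun φ hφ p t => ?_⟩
    rw [map_one, map_one, inv_one, mul_one]
    have : tfA P y₀ φ p p = 0 := tf_self hφ (hY p)
    rw [this, add_zero]
    rfl
  | of i =>
    refine ⟨0, fun φ hφ p t => ?_⟩
    rw [tfθ, FreeGroup.lift_apply_of]
    rfl
  | inv_of i _ =>
    refine ⟨wdist S y₀ ((φ₀ (FreeGroup.of i) : G) * y₀), fun φ hφ p t => ?_⟩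
    rw [map_inv, map_inv, inv_inv, tfθ, FreeGroup.lift_apply_of, tfT_inv]
    set b := φ₀ (FreeGroup.of i) with hb
    ext1
    · rfl
    · show t - tfA P y₀ φ (p * b) p = t + tfA P y₀ φ p (p * b)
      have h1 : wdist S ((p : G) * y₀) (((p * b : P) : G) * y₀) ≤
          wdist S y₀ ((b : G) * y₀) := le_of_eq (tf_d P y₀ S p b)
      have h2 := h1
      rw [wdist_comm hSg] at h2
      have h3 := hφ _ (hY p) _ (hY (p * b)) _ (hY p) h1 h2 (by
        rw [wdist_self]; exact Nat.zero_le _)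
      rw [tf_self hφ (hY p)] at h3
      have h4 : tfA P y₀ φ p (p * b) + tfA P y₀ φ (p * b) p = 0 := h3
      rw [sub_eq_add_neg, neg_eq_of_add_eq_zero_left h4]
  | mul w₁ w₂ h₁ h₂ =>
    obtain ⟨n₁, h₁⟩ := h₁
    obtain ⟨n₂, h₂⟩ := h₂
    set b₁ := (φ₀ w₁)⁻¹ with hb₁
    set b₂ := (φ₀ w₂)⁻¹ with hb₂
    refine ⟨max (max n₁ n₂) (max (wdist S y₀ ((b₂ : G) * y₀)) (max (wdist S y₀ ((b₁ : G) * y₀))
      (wdist S y₀ (((b₂ * b₁ : P) : G) * y₀)))), fun φ hφ p t => ?_⟩
    have e1 := h₁ φ (tf_mono ((le_max_left n₁ n₂).trans (le_max_left _ _)) hφ)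
    have e2 := h₂ φ (tf_mono ((le_max_right n₁ n₂).trans (le_max_left _ _)) hφ)
    have hb : (φ₀ (w₁ * w₂))⁻¹ = b₂ * b₁ := by rw [map_mul, mul_inv_rev]
    rw [map_mul, Equiv.Perm.mul_apply, e2, e1, hb]
    ext1
    · show p * b₂ * b₁ = p * (b₂ * b₁)
      rw [mul_assoc]
    · show t + tfA P y₀ φ p (p * b₂) + tfA P y₀ φ (p * b₂) (p * b₂ * b₁) =
        t + tfA P y₀ φ p (p * (b₂ * b₁))
      rw [mul_assoc p, add_assoc]
      congr 1
      refine hφ _ (hY p) _ (hY (p * b₂)) _ (hY (p * (b₂ * b₁))) ?_ ?_ ?_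
      · rw [tf_d]
        exact (le_max_left _ _).trans (le_max_right _ _)
      · rw [← mul_assoc p, tf_d]
        exact ((le_max_left _ _).trans (le_max_right _ _)).trans (le_max_right _ _)
      · rw [tf_d]
        exact ((le_max_right _ _).trans (le_max_right _ _)).trans (le_max_right _ _)

end

/-- TFP: finitely presented subgroups are stable -/
theorem tfp : TFP := by
  intro G _ S hS hSg k _ P hP Y hinv hcof _ r
  obtain ⟨m, φ₀, hφ₀, R, hR, hker⟩ := hP.out
  rcases Y.eq_empty_or_nonempty with hY0 | ⟨y₀, hy₀⟩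
  · refine ⟨r, le_rfl, fun φ _ _ => ⟨fun _ => 0, ?_⟩⟩
    intro x hx
    rw [hY0] at hx
    exact hx.elim
  have hY : ∀ p : P, (p : G) * y₀ ∈ Y := fun p => hinv p p.2 y₀ hy₀
  obtain ⟨F, hF, hcF⟩ := hcof
  obtain ⟨D, hD⟩ := (hF.image (wdist S y₀)).bddAbove
  have hpy : ∀ y : G, ∃ p : P, y ∈ Y → wdist S ((p : G) * y₀) y ≤ D := by
    intro y
    by_cases hy : y ∈ Y
    · obtain ⟨p, hp, hpf⟩ := hcF y hy
      refine ⟨⟨p, hp⟩⁻¹, fun _ => ?_⟩
      have e : y = p⁻¹ * (p * y) := by rw [inv_mul_cancel_left]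
      have h1 : wdist S (p⁻¹ * y₀) (p⁻¹ * (p * y)) ≤ D := by
        rw [wdist_mul_left]
        exact hD ⟨p * y, hpf, rfl⟩
      rw [← e] at h1
      exact h1
    · exact ⟨1, fun h => absurd h hy⟩
  choose py hpy using hpy
  -- the words
  have hw : ∀ p : P, ∃ w, φ₀ w = p⁻¹ := fun p => hφ₀ p⁻¹
  choose w hw using hw
  have hN : ∀ v : FreeGroup (Fin m), ∃ n, TfGood P y₀ φ₀ S Y k n v :=
    tf_word P y₀ φ₀ hSg hinv hy₀
  choose N hN using hN
  have hSs : {s : P | wdist S y₀ ((s : G) * y₀) ≤ 2 * D + r}.Finite := by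
    refine Set.Finite.preimage (f := fun s : P => (s : G) * y₀) ?_
      (ball_finite hS hSg y₀ (2 * D + r))
    intro a _ b _ hab
    exact Subtype.ext (mul_right_cancel hab)
  obtain ⟨N₁, hN₁⟩ := (hR.image N).bddAbove
  obtain ⟨N₂, hN₂⟩ := (hSs.image fun s => N (w s)).bddAbove
  refine ⟨max (3 * D + 2 * r) (max N₁ N₂), ?_, fun φ hφ _ => ?_⟩
  · exact (by omega : r ≤ 3 * D + 2 * r).trans (le_max_left _ _)
  set θ := tfθ P y₀ φ₀ φ with hθ
  have hθk : φ₀.ker ≤ θ.ker := by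
    rw [← hker]
    refine Subgroup.normalClosure_le_normal ?_
    intro v hv
    have hv1 : φ₀ v = 1 := by
      have : v ∈ φ₀.ker := by rw [← hker]; exact Subgroup.subset_normalClosure hv
      exact this
    have hg := tf_good_mono P y₀ φ₀ (k := k) (((hN₁ ⟨v, hv, rfl⟩).trans (le_max_left _ _)).trans
      (le_max_right (3 * D + 2 * r) _)) (hN v) φ hφ
    rw [SetLike.mem_coe, MonoidHom.mem_ker]
    refine Equiv.ext ?_
    rintro ⟨p, t⟩
    have h1 := hg p t
    rw [hv1, inv_one, mul_one] at h1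
    have h2 : tfA P y₀ φ p p = 0 := tf_self hφ (hY p)
    rw [h2, add_zero] at h1
    exact h1
  have hθe : ∀ v v', φ₀ v = φ₀ v' → θ v = θ v' := by
    intro v v' h
    have h1 : v⁻¹ * v' ∈ θ.ker := hθk (by
      rw [MonoidHom.mem_ker, map_mul, map_inv, h, inv_mul_cancel])
    rw [MonoidHom.mem_ker, map_mul, map_inv] at h1
    exact inv_mul_eq_one.mp h1
  have hθ1 : ∀ v (q : P × k), (θ v q).1 = q.1 * (φ₀ v)⁻¹ := by
    intro v
    induction v using FreeGroup.induction_on with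
    | C1 => intro q; rw [map_one, map_one, inv_one, mul_one]; rfl
    | of i => intro q; rw [hθ, tfθ, FreeGroup.lift_apply_of]; rfl
    | inv_of i _ =>
      intro q
      rw [map_inv, map_inv, inv_inv, hθ, tfθ, FreeGroup.lift_apply_of]; rfl
    | mul v v' h h' =>
      intro q
      rw [map_mul, Equiv.Perm.mul_apply, h, h', map_mul, mul_inv_rev, mul_assoc]
  set f₀ : P → k := fun p => (θ (w p) (1, 0)).2 with hf₀
  have hθw : ∀ p, θ (w p) (1, 0) = (p, f₀ p) := by
    intro p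
    ext1
    · rw [hθ1, hw, inv_inv, one_mul]
    · rfl
  have hstep : ∀ p s : P, wdist S y₀ ((s : G) * y₀) ≤ 2 * D + r →
      f₀ (p * s) = f₀ p + φ ((p : G) * y₀) (((p * s : P) : G) * y₀) := by
    intro p s hs
    have h1 : θ (w (p * s)) = θ (w s * w p) := by
      apply hθe
      rw [map_mul, hw, hw, hw, mul_inv_rev]
    have hg := tf_good_mono P y₀ φ₀ (k := k) (((hN₂ ⟨s, hs, rfl⟩).trans (le_max_right _ _)).trans
      (le_max_right (3 * D + 2 * r) _)) (hN (w s)) φ hφ p (f₀ p)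
    have h2 : θ (w (p * s)) (1, 0) = (p * s, f₀ p + tfA P y₀ φ p (p * s)) := by
      rw [h1, map_mul, Equiv.Perm.mul_apply, hθw, hθ, hg, hw, inv_inv]
    rw [hθw] at h2
    exact congrArg Prod.snd h2
  refine ⟨fun y => f₀ (py y) + φ ((py y : G) * y₀) y, ?_⟩
  intro x hx y hy hxy
  have hM : 3 * D + 2 * r ≤ max (3 * D + 2 * r) (max N₁ N₂) := le_max_left _ _
  set n := max (3 * D + 2 * r) (max N₁ N₂) with hn
  have dx := hpy x hx
  have dy := hpy y hy
  have d1 : wdist S ((py x : G) * y₀) y ≤ D + r :=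
    (wdist_triangle hSg _ x _).trans (by omega)
  have d2 : wdist S ((py x : G) * y₀) ((py y : G) * y₀) ≤ 2 * D + r := by
    have h1 := wdist_triangle hSg ((py x : G) * y₀) y ((py y : G) * y₀)
    rw [wdist_comm hSg y] at h1
    omega
  have e1 : py y = py x * ((py x)⁻¹ * py y) := by group
  have d3 : wdist S y₀ ((((py x)⁻¹ * py y : P) : G) * y₀) ≤ 2 * D + r := by
    rw [← tf_d P y₀ S (py x), ← e1]
    exact d2
  have h1 := hstep (py x) ((py x)⁻¹ * py y) d3
  rw [← e1] at h1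
  have h2 := hφ _ (hY (py x)) _ (hY (py y)) y hy (by omega) (by omega) (by omega)
  have h3 := hφ _ (hY (py x)) x hx y hy (by omega) (by omega) (by omega)
  show φ x y = f₀ (py y) + φ ((py y : G) * y₀) y - (f₀ (py x) + φ ((py x : G) * y₀) x)
  rw [h1]
  linear_combination h3 - h2

end Pool.Agent.QE
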