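import Pool.Agent.QE.TVa

/-!
# Project QE (MP_bbdce3_al), row TV: stability of a group that acts on a tree with stable vertex
groups
-/

set_option autoImplicit false

namespace Pool.Agent.QE

open Pool.Agent.QIS Pool.Agent.QD MulAction

section TV

variable {G : Type} [Group G] {S : Set G}

/-- transport of primitives along a translation -/
theorem tv_prim {k : Type} [Field k] {X : Type} [MulAction G X] {Z : Set X} {z : X} {r n n₀ : ℕ}
    (hn : n₀ ≤ n)
    (hst : ∀ φ : G → G → k, Coc S (tvR (G := G) Z z) n₀ φ → FinC S (tvR (G := G) Z z) n₀ φ →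
      ∃ f : G → k, Prim S (tvR (G := G) Z z) r φ f)
    {φ : G → G → k} (hφ : Coc S Set.univ n φ) (hfin : FinC S Set.univ n φ) (x₀ : G) :
    ∃ f : G → k, Prim S (tvR (G := G) Z (x₀ • z)) r φ f := by
  have hc : Coc S (tvR (G := G) Z z) n₀ (fun x y => φ (x₀ * x) (x₀ * y)) := by
    intro x _ y _ w _ h1 h2 h3
    refine hφ _ (Set.mem_univ _) _ (Set.mem_univ _) _ (Set.mem_univ _) ?_ ?_ ?_
    · rw [wdist_mul_left]
      exact h1.trans hn
    · rw [wdist_mul_left]
      exact h2.trans hn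
    · rw [wdist_mul_left]
      exact h3.trans hn
  have hd : FinC S (tvR (G := G) Z z) n₀ (fun x y => φ (x₀ * x) (x₀ * y)) := by
    have h := Set.Finite.preimage (f := fun q : G × G => (x₀ * q.1, x₀ * q.2))
      (fun a _ b _ hab => by
        have h1 := congrArg Prod.fst hab
        have h2 := congrArg Prod.snd hab
        exact Prod.ext (mul_left_cancel h1) (mul_left_cancel h2)) hfin
    refine Set.Finite.subset h ?_
    rintro q ⟨_, _, h3, h4⟩
    refine ⟨Set.mem_univ _, Set.mem_univ _, ?_, h4⟩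
    show wdist S (x₀ * q.1) (x₀ * q.2) ≤ n
    rw [wdist_mul_left]
    exact h3.trans hn
  obtain ⟨f, hf⟩ := hst _ hc hd
  refine ⟨fun x => f (x₀⁻¹ * x), fun x hx y hy hxy => ?_⟩
  have h := hf (x₀⁻¹ * x) ((tv_mem_smul Z x₀ x z).1 hx) (x₀⁻¹ * y)
    ((tv_mem_smul Z x₀ y z).1 hy) (by rwa [wdist_mul_left])
  simp only [mul_inv_cancel_left] at h
  exact h

/-- a function that integrates a cocycle along generators integrates it at the scale of the
cocycle -/
theorem tv_integrate {k : Type} [Field k] {n : ℕ} {φ : G → G → k} (hφ : Coc S Set.univ n φ)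
    {f : G → k} (hf : ∀ x s, (s ∈ S ∨ s⁻¹ ∈ S) → f (x * s) - f x = φ x (x * s)) :
    ∀ (l : List G), (∀ s ∈ l, s ∈ S ∨ s⁻¹ ∈ S) → l.length ≤ n → ∀ x,
      φ x (x * l.prod) = f (x * l.prod) - f x := by
  intro l
  induction l with
  | nil =>
    intro _ _ x
    have h := hφ x (Set.mem_univ _) x (Set.mem_univ _) x (Set.mem_univ _)
      (by rw [wdist_self]; exact Nat.zero_le _) (by rw [wdist_self]; exact Nat.zero_le _)
      (by rw [wdist_self]; exact Nat.zero_le _)
    rw [List.prod_nil, mul_one, sub_self]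
    exact left_eq_add.1 h.symm
  | cons s l ih =>
    intro hl hlen x
    have hs : s ∈ S ∨ s⁻¹ ∈ S := hl s List.mem_cons_self
    have hl' : ∀ t ∈ l, t ∈ S ∨ t⁻¹ ∈ S := fun t ht => hl t (List.mem_cons_of_mem _ ht)
    rw [List.length_cons] at hlen
    have h1 := ih hl' (by omega) (x * s)
    have hd : ∀ (l' : List G), (∀ t ∈ l', t ∈ S ∨ t⁻¹ ∈ S) → ∀ y,
        wdist S y (y * l'.prod) ≤ l'.length := by
      intro l' hl' y
      rw [wdist, inv_mul_cancel_left]
      exact q6_wlen_le S l' hl' rfl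
    have h2 := hφ x (Set.mem_univ _) (x * s) (Set.mem_univ _) (x * s * l.prod) (Set.mem_univ _)
      ((q6_gen hs x).trans (by omega)) ((hd l hl' (x * s)).trans (by omega)) (by
        have h3 := hd (s :: l) hl x
        rw [List.prod_cons, ← mul_assoc, List.length_cons] at h3
        exact h3.trans hlen)
    rw [List.prod_cons, ← mul_assoc, ← h2, h1, ← hf x s hs]
    ring

/-- a finite set of vertices that contains the paths from the origin to its translates by the
generators -/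
theorem tv_hull (hS : S.Finite) {V : Type} [MulAction G V] {T : SimpleGraph V} (hT : T.IsTree)
    (a : V) : ∃ Z : Set V, Z.Finite ∧ a ∈ Z ∧ ∀ s : G, (s ∈ S ∨ s⁻¹ ∈ S) →
      ∃ w : T.Walk a (s • a), ∀ v ∈ w.support, v ∈ Z := by
  have hch : ∀ s : G, ∃ w : T.Walk a (s • a), True := fun s => by
    obtain ⟨w⟩ := hT.connected.preconnected a (s • a)
    exact ⟨w, trivial⟩
  choose w _ using hch
  have hfin : {s : G | s ∈ S ∨ s⁻¹ ∈ S}.Finite := by
    have h : {s : G | s ∈ S ∨ s⁻¹ ∈ S} = S ∪ (fun s => s⁻¹) ⁻¹' S := rfl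
    rw [h]
    exact hS.union (hS.preimage inv_injective.injOn)
  refine ⟨{a} ∪ ⋃ s ∈ {s : G | s ∈ S ∨ s⁻¹ ∈ S}, {v | v ∈ (w s).support}, ?_, Or.inl rfl, ?_⟩
  · exact (Set.finite_singleton a).union (hfin.biUnion fun s _ => List.finite_toSet _)
  · intro s hs
    refine ⟨w s, fun v hv => Or.inr ?_⟩
    rw [Set.mem_iUnion₂]
    exact ⟨s, hs, hv⟩

end TV

/-- TV: stability of a group that acts on a tree with stable vertex groups -/
theorem tv : TV := by
  intro G _ S hS hSg k _ V _ T hT hact hne hFG hSt hFGe r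
  obtain ⟨a⟩ := hne
  obtain ⟨Z, hZ, haZ, hwalk⟩ := tv_hull hS hT a
  -- the scale at which the intersections of two regions are connected
  have hpair : ∀ p : V × V, ∃ r₀ : ℕ, T.Adj p.1 p.2 →
      ∀ r, r₀ ≤ r → CConn S (tvR (G := G) (Z ×ˢ Z) p) r := by
    intro p
    by_cases hp : T.Adj p.1 p.2
    · have hst : stabilizer G p = stabilizer G p.1 ⊓ stabilizer G p.2 := by
        ext g
        rw [Subgroup.mem_inf, mem_stabilizer_iff, mem_stabilizer_iff, mem_stabilizer_iff,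
          Prod.ext_iff]
        rfl
      obtain ⟨r₀, hr₀⟩ := tv_conn hSg (Q := stabilizer G p) (hst ▸ hFGe p.1 p.2 hp)
        (tv_inv (Z ×ˢ Z) p) (tv_cof (hZ.prod hZ) p)
      exact ⟨r₀, fun _ => hr₀⟩
    · exact ⟨0, fun h => absurd h hp⟩
  choose ρ hρ using hpair
  obtain ⟨r1, hr1⟩ := ((hZ.prod hZ).image ρ).bddAbove
  have hconn : ∀ v w : V, T.Adj v w → ∀ x, x ∈ tvR (G := G) Z v → x ∈ tvR (G := G) Z w →
      CConn S (tvR (G := G) (Z ×ˢ Z) (v, w)) (max r1 1) := by
    intro v w hvw x hxv hxw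
    have h1 := hρ (x⁻¹ • v, x⁻¹ • w) (hact x⁻¹ hvw) (max r1 1)
      ((hr1 ⟨(x⁻¹ • v, x⁻¹ • w), ⟨hxv, hxw⟩, rfl⟩).trans (le_max_left _ _))
    have h2 := tv_conn_smul h1 x
    have h3 : x • ((x⁻¹ • v, x⁻¹ • w) : V × V) = (v, w) := by
      rw [Prod.smul_mk, smul_inv_smul, smul_inv_smul]
    rwa [h3] at h2
  -- the scale of the cocycles
  have hsc : ∀ z : V, ∃ n : ℕ, ∀ φ : G → G → k, Coc S (tvR (G := G) Z z) n φ →
      FinC S (tvR (G := G) Z z) n φ → ∃ f : G → k, Prim S (tvR (G := G) Z z) (max r1 1) φ f := by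
    intro z
    have h := hSt z (tvR (G := G) Z z) (tv_inv Z z) (tv_cof hZ z) (by
      obtain ⟨r₀, hr₀⟩ := tv_conn hSg (hFG z) (tv_inv Z z) (tv_cof hZ z)
      exact ⟨r₀, hr₀ r₀ le_rfl⟩)
    obtain ⟨n, _, hn⟩ := h (max r1 1)
    exact ⟨n, hn⟩
  choose N hN using hsc
  obtain ⟨n1, hn1⟩ := (hZ.image N).bddAbove
  refine ⟨max n1 r, le_max_right _ _, fun φ hφ hfin => ?_⟩
  -- primitives on the regions
  have hprim : ∀ v : V, ∃ f : G → k, Prim S (tvR (G := G) Z v) (max r1 1) φ f := by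
    intro v
    by_cases hv : (tvR (G := G) Z v).Nonempty
    · obtain ⟨x₀, hx₀⟩ := hv
      have h := tv_prim (z := x₀⁻¹ • v) ((hn1 ⟨x₀⁻¹ • v, hx₀, rfl⟩).trans (le_max_left n1 r))
        (hN (x₀⁻¹ • v)) hφ hfin x₀
      rwa [smul_inv_smul] at h
    · exact ⟨fun _ => 0, fun x hx => absurd ⟨x, hx⟩ hv⟩
  choose F hF using hprim
  -- the differences are constant on the intersections
  have hconst : ∀ v w : V, T.Adj v w → ∀ x, x ∈ tvR (G := G) Z v → x ∈ tvR (G := G) Z w →
      ∀ y, y ∈ tvR (G := G) Z v → y ∈ tvR (G := G) Z w → F w x - F v x = F w y - F v y := by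
    intro v w hvw x hxv hxw y hyv hyw
    have h := hconn v w hvw x hxv hxw x ⟨hxv, hxw⟩ y ⟨hyv, hyw⟩
    clear hyv hyw
    induction h with
    | refl => rfl
    | tail _ hbc ih =>
      rw [ih]
      have h1 := hF v _ hbc.1.1 _ hbc.2.1.1 hbc.2.2
      have h2 := hF w _ hbc.1.2 _ hbc.2.1.2 hbc.2.2
      have h3 := h2.symm.trans h1
      rw [sub_eq_sub_iff_add_eq_add] at h3 ⊢
      linear_combination - h3
  have hg : ∃ g : V → V → k, (∀ v w, g v w = - g w v) ∧ ∀ v w, T.Adj v w →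
      ∀ x, x ∈ tvR (G := G) Z v → x ∈ tvR (G := G) Z w → F w x - F v x = g v w := by
    classical
    have hch : ∀ v w : V, ∃ c : k, (T.Adj v w → ∀ x, x ∈ tvR (G := G) Z v →
        x ∈ tvR (G := G) Z w → F w x - F v x = c) ∧
        ((¬ ∃ x, x ∈ tvR (G := G) Z v ∧ x ∈ tvR (G := G) Z w ∧ T.Adj v w) → c = 0) := by
      intro v w
      by_cases h : ∃ x, x ∈ tvR (G := G) Z v ∧ x ∈ tvR (G := G) Z w ∧ T.Adj v w
      · obtain ⟨x, hxv, hxw, hvw⟩ := h
        exact ⟨F w x - F v x, fun _ y hyv hyw => hconst v w hvw y hyv hyw x hxv hxw,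
          fun h => absurd ⟨x, hxv, hxw, hvw⟩ h⟩
      · exact ⟨0, fun hvw x hxv hxw => absurd ⟨x, hxv, hxw, hvw⟩ h, fun _ => rfl⟩
    choose g hg1 hg2 using hch
    refine ⟨g, fun v w => ?_, hg1⟩
    by_cases h : ∃ x, x ∈ tvR (G := G) Z v ∧ x ∈ tvR (G := G) Z w ∧ T.Adj v w
    · obtain ⟨x, hxv, hxw, hvw⟩ := h
      rw [← hg1 v w hvw x hxv hxw, ← hg1 w v hvw.symm x hxw hxv]
      ring
    · have h' : ¬ ∃ x, x ∈ tvR (G := G) Z w ∧ x ∈ tvR (G := G) Z v ∧ T.Adj w v :=
        fun ⟨x, h1, h2, h3⟩ => h ⟨x, h2, h1, h3.symm⟩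
      rw [hg2 v w h, hg2 w v h', neg_zero]
  obtain ⟨g, hganti, hgF⟩ := hg
  obtain ⟨K, hK⟩ := tv_potential hT a g hganti
  -- the value at `x` does not depend on the vertex
  have hwk : ∀ (x : G) (u u' : V) (w : T.Walk u u'), (∀ v ∈ w.support, v ∈ Z) →
      F (x • u) x - K (x • u) = F (x • u') x - K (x • u') := by
    intro x u u' w
    induction w with
    | nil => intro _; rfl
    | @cons u v u' huv p ih =>
      intro hsup
      rw [SimpleGraph.Walk.support_cons] at hsup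
      have hu : u ∈ Z := hsup u List.mem_cons_self
      have hsup' : ∀ z ∈ p.support, z ∈ Z := fun z hz => hsup z (List.mem_cons_of_mem _ hz)
      have hv : v ∈ Z := hsup' v p.start_mem_support
      rw [← ih hsup']
      have hxu : x ∈ tvR (G := G) Z (x • u) := by
        show x⁻¹ • (x • u) ∈ Z
        rw [inv_smul_smul]
        exact hu
      have hxv : x ∈ tvR (G := G) Z (x • v) := by
        show x⁻¹ • (x • v) ∈ Z
        rw [inv_smul_smul]
        exact hv
      have h1 := hgF _ _ (hact x huv) x hxu hxv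
      have h2 := hK _ _ (hact x huv)
      have h3 := h1.trans h2.symm
      linear_combination - h3
  refine ⟨fun x => F (x • a) x - K (x • a), ?_⟩
  have hstep : ∀ x s, (s ∈ S ∨ s⁻¹ ∈ S) →
      (F ((x * s) • a) (x * s) - K ((x * s) • a)) - (F (x • a) x - K (x • a)) = φ x (x * s) := by
    intro x s hs
    obtain ⟨w, hw⟩ := hwalk s hs
    rw [hwk x a (s • a) w hw, ← mul_smul]
    have hx1 : x ∈ tvR (G := G) Z ((x * s) • a) := by
      show x⁻¹ • ((x * s) • a) ∈ Z
      rw [mul_smul, inv_smul_smul]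
      exact hw _ w.end_mem_support
    have hx2 : x * s ∈ tvR (G := G) Z ((x * s) • a) := by
      show (x * s)⁻¹ • ((x * s) • a) ∈ Z
      rw [inv_smul_smul]
      exact haZ
    rw [hF _ x hx1 (x * s) hx2 ((q6_gen hs x).trans (le_max_right _ _))]
    ring
  intro x _ y _ hxy
  obtain ⟨l, h1, h2, h3⟩ := q6_exists_word hSg (x⁻¹ * y)
  have h4 := tv_integrate (f := fun x => F (x • a) x - K (x • a)) hφ hstep l h1 (by
    rw [h3]
    exact le_trans hxy (le_max_right _ _)) x
  rw [h2, mul_inv_cancel_left] at h4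
  exact h4

end Pool.Agent.QE
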