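import Pool.Agent.QD.Main
import Pool.Agent.QE.Fin
import Pool.Agent.QE.A
import Pool.Agent.QE.TFP
import Pool.Agent.QE.TV
import Pool.Agent.QE.B3
import Pool.Agent.QE.B4
import Pool.Agent.QE.B6
import Pool.Agent.QE.B8
import Pool.Agent.QE.B9
import Pool.Agent.QE.B11
import Pool.Agent.QE.C2
import Pool.Agent.QE.C4
import Pool.Agent.QE.C5
import Pool.Agent.QE.C6
import Pool.Agent.QE.C7
import Pool.Agent.QE.C17

/-!
# The main theorem of the project QE (MP_bbdce3_al)
-/

set_option autoImplicit false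

namespace Pool.Agent.QE

open Pool.Agent.QIS Pool.Agent.QD MulAction

/-- the main step, without hypotheses -/
theorem sm1_all : SM1 :=
  have b0c : SB0c := sb0c sa9
  have b1 : SB1 := sb1 sa9
  have b0b : SB0b := sb0b b1
  have a4 : SA4 := sa4 sa3 sa6
  have b8 : SB8 := sb8 a4 sa9 sb0a b0b b0c b1
  have b6 : SB6 := sb6 sa9 sb5
  have c5 : SC5 := sc5 sc1 b1
  have c2 : SC2 := sc2 sc1
  have c6 : SC6 := sc6 sc1
  have c10 : SC10 := sc10 sc9
  sm1 ta1 sa8 (sb3 a4 sa5 sa6 sa7 sa9 b1) (sb4 sa9 sb0a b0b b1 b8) (sb9 sb0a b0b b1 b6 b8)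
    (sb11 sb0a b0b b1 b6) (sb12 b1) sc3 (sc4 sc1) sc7 sc8 (sc17 sc1 c2 c5 c6 c10 sa9)

/-- splittings over two-ended subgroups and quasi-isometries: vertex groups that are finitely
presented or have a group algebra in a division ring -/
theorem main_all (G H : Type) [Group G] [Group H] (S : Set G) (S' : Set H)
    (hS : S.Finite) (hS' : S'.Finite)
    (hSg : Subgroup.closure S = ⊤) (hS'g : Subgroup.closure S' = ⊤)
    (hone : OneEnded S) (hnfp : ¬ Group.IsFinitelyPresented G)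
    (E : Splitting G) (hC : TwoEnded E.edgeGroup)
    (G₀ : Subgroup G) (hG₀ : G₀.FiniteIndex) (k : Type) [Field k]
    (hv : ∀ v : E.V, Group.IsFinitelyPresented (stabilizer G₀ v) ∨
      ∃ (D : Type) (_ : DivisionRing D) (ι : MonoidAlgebra k (stabilizer G₀ v) →+* D),
        Function.Injective ι)
    (hqi : ∃ (K : ℕ) (φ : G → H), IsQI S S' K φ) : SplitsOverTwoEnded H :=
  final sm1_all tfp ta1 tv ta2 (sb12 (sb1 sa9)) sc8 sc9 (sc10 sc9) sc11 (sc13 sb10)
    (sc14 sa9 sc12) sc15 sc16 G H S S' hS hS' hSg hS'g hone hnfp E hC G₀ hG₀ k hv hqi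

end Pool.Agent.QE
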