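import Pool.Agent.QE.Stm
import Pool.Agent.H67.Q.Words

/-!
# Project QE (MP_bbdce3_al), row TV, part a: regions, connectedness, potentials on trees
-/

set_option autoImplicit false

namespace Pool.Agent.QE

open Pool.Agent.QIS Pool.Agent.QD MulAction

section TVa

variable {G : Type} [Group G] {S : Set G}

/-- the region of `v`: the points `x` such that the translate of `v` back to the origin lies in
`Z` -/
def tvR {X : Type} [MulAction G X] (Z : Set X) (v : X) : Set G := {x | x⁻¹ • v ∈ Z}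

theorem tv_inv {X : Type} [MulAction G X] (Z : Set X) (v : X) :
    Inv (stabilizer G v) (tvR (G := G) Z v) := by
  intro p hp y hy
  show (p * y)⁻¹ • v ∈ Z
  have h : p⁻¹ • v = v := (stabilizer G v).inv_mem hp
  rw [mul_inv_rev, mul_smul, h]
  exact hy

theorem tv_cof {X : Type} [MulAction G X] {Z : Set X} (hZ : Z.Finite) (v : X) :
    Cof (stabilizer G v) (tvR (G := G) Z v) := by
  have hch : ∀ z : X, ∃ x : G, (∃ y : G, y⁻¹ • v = z) → x⁻¹ • v = z := by
    intro z
    by_cases h : ∃ y : G, y⁻¹ • v = z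
    · obtain ⟨y, hy⟩ := h
      exact ⟨y, fun _ => hy⟩
    · exact ⟨1, fun h2 => absurd h2 h⟩
  choose ξ hξ using hch
  refine ⟨ξ '' Z, hZ.image ξ, fun y hy => ⟨ξ (y⁻¹ • v) * y⁻¹, ?_, ?_⟩⟩
  · have h := hξ (y⁻¹ • v) ⟨y, rfl⟩
    have h2 : ξ (y⁻¹ • v) • (y⁻¹ • v) = v := by
      calc ξ (y⁻¹ • v) • (y⁻¹ • v) = ξ (y⁻¹ • v) • ((ξ (y⁻¹ • v))⁻¹ • v) := by rw [h]
        _ = v := smul_inv_smul _ _
    rw [mem_stabilizer_iff, mul_smul]
    exact h2
  · rw [inv_mul_cancel_right]
    exact ⟨_, hy, rfl⟩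

theorem tv_mem_smul {X : Type} [MulAction G X] (Z : Set X) (g x : G) (v : X) :
    x ∈ tvR (G := G) Z (g • v) ↔ g⁻¹ * x ∈ tvR (G := G) Z v := by
  show x⁻¹ • (g • v) ∈ Z ↔ (g⁻¹ * x)⁻¹ • v ∈ Z
  rw [mul_inv_rev, inv_inv, mul_smul]

/-- translation of connectedness -/
theorem tv_conn_smul {X : Type} [MulAction G X] {Z : Set X} {v : X} {r : ℕ}
    (h : CConn S (tvR (G := G) Z v) r) (g : G) : CConn S (tvR (G := G) Z (g • v)) r := by
  intro x hx y hy
  have h1 := h _ ((tv_mem_smul Z g x v).1 hx) _ ((tv_mem_smul Z g y v).1 hy)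
  have h2 : ∀ u w : G, Relation.ReflTransGen (fun a b => a ∈ tvR (G := G) Z v ∧
      b ∈ tvR (G := G) Z v ∧ wdist S a b ≤ r) u w →
      Relation.ReflTransGen (fun a b => a ∈ tvR (G := G) Z (g • v) ∧
        b ∈ tvR (G := G) Z (g • v) ∧ wdist S a b ≤ r) (g * u) (g * w) := by
    intro u w huw
    induction huw with
    | refl => exact Relation.ReflTransGen.refl
    | tail _ hbc ih =>
      refine ih.tail ⟨?_, ?_, ?_⟩
      · rw [tv_mem_smul, inv_mul_cancel_left]
        exact hbc.1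
      · rw [tv_mem_smul, inv_mul_cancel_left]
        exact hbc.2.1
      · rw [wdist_mul_left]
        exact hbc.2.2
  have h3 := h2 _ _ h1
  rwa [mul_inv_cancel_left, mul_inv_cancel_left] at h3

/-- regions of finitely generated subgroups are connected at all large scales -/
theorem tv_conn (hSg : Subgroup.closure S = ⊤) {Q : Subgroup G} (hQ : Q.FG) {Y : Set G}
    (hinv : Inv Q Y) (hcof : Cof Q Y) : ∃ r₀, ∀ r, r₀ ≤ r → CConn S Y r := by
  obtain ⟨B, hB, hBf⟩ := (Subgroup.fg_iff Q).1 hQ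
  obtain ⟨F, hF, hFo⟩ := hcof
  obtain ⟨r1, hr1⟩ := (Set.Finite.image2 (fun b f => wdist S f (b * f)) hBf hF).bddAbove
  obtain ⟨r2, hr2⟩ := (Set.Finite.image2 (fun f f' => wdist S f f') hF hF).bddAbove
  refine ⟨max r1 r2, fun r hr => ?_⟩
  have hr1' : r1 ≤ r := (le_max_left _ _).trans hr
  have hr2' : r2 ≤ r := (le_max_right _ _).trans hr
  have hsymm : ∀ a b, Relation.ReflTransGen (fun a b => a ∈ Y ∧ b ∈ Y ∧ wdist S a b ≤ r) a b →
      Relation.ReflTransGen (fun a b => a ∈ Y ∧ b ∈ Y ∧ wdist S a b ≤ r) b a := by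
    intro a b hab
    induction hab with
    | refl => exact Relation.ReflTransGen.refl
    | tail _ hbc ih => exact Relation.ReflTransGen.head ⟨hbc.2.1, hbc.1, by
        rw [wdist_comm hSg]; exact hbc.2.2⟩ ih
  have htr : ∀ q ∈ Q, ∀ a b,
      Relation.ReflTransGen (fun a b => a ∈ Y ∧ b ∈ Y ∧ wdist S a b ≤ r) a b →
      Relation.ReflTransGen (fun a b => a ∈ Y ∧ b ∈ Y ∧ wdist S a b ≤ r) (q * a) (q * b) := by
    intro q hq a b hab
    induction hab with
    | refl => exact Relation.ReflTransGen.refl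
    | tail _ hbc ih =>
      exact ih.tail ⟨hinv q hq _ hbc.1, hinv q hq _ hbc.2.1, by
        rw [wdist_mul_left]; exact hbc.2.2⟩
  have hq : ∀ q ∈ Q, ∀ f ∈ F, f ∈ Y →
      Relation.ReflTransGen (fun a b => a ∈ Y ∧ b ∈ Y ∧ wdist S a b ≤ r) f (q * f) := by
    intro q hq
    rw [← hB] at hq
    induction hq using Subgroup.closure_induction with
    | mem b hb =>
      intro f hf hfY
      have hbQ : b ∈ Q := by rw [← hB]; exact Subgroup.subset_closure hb
      exact Relation.ReflTransGen.single ⟨hfY, hinv b hbQ f hfY,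
        (hr1 (Set.mem_image2_of_mem hb hf)).trans hr1'⟩
    | one =>
      intro f _ _
      rw [one_mul]
    | mul q₁ q₂ h₁ _ ih₁ ih₂ =>
      intro f hf hfY
      have h₁Q : q₁ ∈ Q := by rw [← hB]; exact h₁
      have h := htr q₁ h₁Q _ _ (ih₂ f hf hfY)
      rw [← mul_assoc] at h
      exact (ih₁ f hf hfY).trans h
    | inv q₁ h₁ ih₁ =>
      intro f hf hfY
      have h₁Q : q₁ ∈ Q := by rw [← hB]; exact h₁
      have h := htr q₁⁻¹ (Q.inv_mem h₁Q) _ _ (ih₁ f hf hfY)
      rw [inv_mul_cancel_left] at h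
      exact hsymm _ _ h
  have hx : ∀ x ∈ Y, ∃ f ∈ F, f ∈ Y ∧
      Relation.ReflTransGen (fun a b => a ∈ Y ∧ b ∈ Y ∧ wdist S a b ≤ r) f x := by
    intro x hxY
    obtain ⟨p, hp, hpx⟩ := hFo x hxY
    refine ⟨p * x, hpx, hinv p hp x hxY, ?_⟩
    have h := hq p⁻¹ (Q.inv_mem hp) (p * x) hpx (hinv p hp x hxY)
    rwa [inv_mul_cancel_left] at h
  intro x hxY y hyY
  obtain ⟨f, hf, hfY, h1⟩ := hx x hxY
  obtain ⟨f', hf', hfY', h2⟩ := hx y hyY
  refine (hsymm _ _ h1).trans (Relation.ReflTransGen.head ⟨hfY, hfY', ?_⟩ h2)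
  exact (hr2 (Set.mem_image2_of_mem hf hf')).trans hr2'

/-- an antisymmetric function on the edges of a tree has a potential -/
theorem tv_potential {V k : Type} [Field k] {T : SimpleGraph V} (hT : T.IsTree) (a : V)
    (g : V → V → k) (hg : ∀ v w, g v w = - g w v) :
    ∃ K : V → k, ∀ v w, T.Adj v w → K w - K v = g v w := by
  have hch : ∀ v : V, ∃ p : T.Walk a v, p.IsPath ∧ ∀ q : T.Walk a v, q.IsPath → q = p := by
    intro v
    obtain ⟨p, hp, hu⟩ := hT.existsUnique_path a v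
    exact ⟨p, hp, hu⟩
  choose P hP hPu using hch
  have hedge : ∀ v w (h : T.Adj v w) (q : T.Walk v w), q.IsPath →
      q = SimpleGraph.Walk.cons h SimpleGraph.Walk.nil := by
    intro v w h q hq
    obtain ⟨p, _, hu⟩ := hT.existsUnique_path v w
    rw [hu q hq, hu (SimpleGraph.Walk.cons h SimpleGraph.Walk.nil) ?_]
    show (SimpleGraph.Walk.cons h SimpleGraph.Walk.nil).IsPath
    rw [SimpleGraph.Walk.cons_isPath_iff]
    refine ⟨SimpleGraph.Walk.IsPath.nil, ?_⟩
    rw [SimpleGraph.Walk.support_nil, List.mem_singleton]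
    exact h.ne
  let sm : ∀ {v w : V}, T.Walk v w → k := fun p => (p.darts.map fun d => g d.fst d.snd).sum
  refine ⟨fun v => sm (P v), fun v w hvw => ?_⟩
  show sm (P w) - sm (P v) = g v w
  classical
  by_cases hw : w ∈ (P v).support
  · have h1 : (P v).takeUntil w hw = P w := hPu w _ ((hP v).takeUntil hw)
    have h2 : (P v).dropUntil w hw = SimpleGraph.Walk.cons hvw.symm SimpleGraph.Walk.nil :=
      hedge w v hvw.symm _ ((hP v).dropUntil hw)
    have h3 : P v = (P w).append (SimpleGraph.Walk.cons hvw.symm SimpleGraph.Walk.nil) := by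
      rw [← h1, ← h2]
      exact ((P v).take_spec hw).symm
    have h4 : sm (P v) = sm (P w) + g w v := by
      show ((P v).darts.map fun d => g d.fst d.snd).sum = _
      rw [h3, SimpleGraph.Walk.darts_append, List.map_append, List.sum_append]
      simp [sm]
    rw [h4, hg v w]
    ring
  · have h1 : (P v).concat hvw = P w := hPu w _ ((hP v).concat hw hvw)
    have h4 : sm (P w) = sm (P v) + g v w := by
      show ((P w).darts.map fun d => g d.fst d.snd).sum = _
      rw [← h1, SimpleGraph.Walk.darts_concat, List.concat_eq_append, List.map_append,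
        List.sum_append]
      simp [sm]
    rw [h4]
    ring

end TVa

end Pool.Agent.QE
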